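import Mathlib
import Pool.Agent.W292.FM.Cyclo

/-!
# The normalised trace on the cyclotomic tower of `ℚ_[p]`

The normalised trace `ℚ_[p]^alg → ℚ_[p]` is bounded on the field generated by all roots of unity
of `p`-power order.
-/

set_option autoImplicit false

namespace Pool.Agent.Helper117_HT

open Polynomial IntermediateField Pool.Agent.W292.FM

variable {p : ℕ} [hp : Fact p.Prime]

/-- a monic polynomial of degree less than `φ(p ^ (n + 1))` does not vanish at `ζ - 1` -/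
theorem aeval_sub_one_ne_zero {z : PadicAlgCl p} {n : ℕ} (hz : IsPrimitiveRoot z (p ^ (n + 1)))
    {f : ℚ_[p][X]} (hf : f.Monic) (hd : f.natDegree < Nat.totient (p ^ (n + 1))) :
    aeval (z - 1) f ≠ 0 := by
  intro h0
  rw [aeval_eq_sum_range' hd] at h0
  have h1 := norm_term_le hz (fun j => f.coeff j) (i := f.natDegree) hd
  simp only [Algebra.smul_def] at h0
  rw [h0, norm_zero, hf.coeff_natDegree, map_one, one_mul, norm_pow] at h1
  have h2 : ‖z - 1‖ ≠ 0 := by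
    intro h3
    have h4 := norm_sub_one_pow_totient hz
    rw [h3, zero_pow (Nat.totient_pos.2 (pow_pos hp.out.pos _)).ne'] at h4
    have := one_lt_p p
    exact absurd h4.symm (inv_ne_zero (by linarith))
  exact absurd h1 (not_le.2 (by positivity))

theorem minpoly_eq_cyclotomic {z : PadicAlgCl p} {n : ℕ} (hz : IsPrimitiveRoot z (p ^ (n + 1))) :
    minpoly ℚ_[p] z = cyclotomic (p ^ (n + 1)) ℚ_[p] := by
  have hpos : 0 < p ^ (n + 1) := pow_pos hp.out.pos _
  have hint : IsIntegral ℚ_[p] z := Algebra.IsIntegral.isIntegral z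
  have hroot : aeval z (cyclotomic (p ^ (n + 1)) ℚ_[p]) = 0 := by
    have : NeZero ((p ^ (n + 1) : ℕ) : PadicAlgCl p) := ⟨by
      exact_mod_cast hpos.ne'⟩
    rw [aeval_def, eval₂_eq_eval_map, map_cyclotomic, ← IsRoot.def, isRoot_cyclotomic_iff]
    exact hz
  have hdvd : minpoly ℚ_[p] z ∣ cyclotomic (p ^ (n + 1)) ℚ_[p] := minpoly.dvd _ _ hroot
  refine (eq_of_monic_of_dvd_of_natDegree_le (minpoly.monic hint) (cyclotomic.monic _ _)
    hdvd ?_).symm
  rw [natDegree_cyclotomic]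
  by_contra hlt
  push Not at hlt
  have h1 := aeval_sub_one_ne_zero hz (f := (minpoly ℚ_[p] z).comp (X + C 1))
    ((minpoly.monic hint).comp_X_add_C 1) (by
      rw [natDegree_comp, natDegree_X_add_C, mul_one]; exact hlt)
  apply h1
  rw [aeval_comp]
  simp

/-- The normalised trace to `ℚ_[p]`. -/
noncomputable abbrev nt (p : ℕ) [Fact p.Prime] : PadicAlgCl p →ₗ[ℚ_[p]] ℚ_[p] :=
  Algebra.normalizedTrace ℚ_[p] (PadicAlgCl p)

theorem nt_gal (g : Gal(PadicAlgCl p/ℚ_[p])) (x : PadicAlgCl p) : nt p (g x) = nt p x :=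
  Algebra.normalizedTrace_map ℚ_[p] (PadicAlgCl p) (g : PadicAlgCl p →ₐ[ℚ_[p]] PadicAlgCl p) x

theorem nt_one : nt p 1 = 1 := by
  have h := Algebra.normalizedTrace_algebraMap_apply ℚ_[p] ℚ_[p] (PadicAlgCl p) 1
  rw [map_one, Algebra.normalizedTrace_self_apply] at h
  exact h

theorem norm_nt_rootOfUnity {z : PadicAlgCl p} {n : ℕ} (h : z ^ p ^ n = 1) : ‖nt p z‖ ≤ 1 := by
  obtain ⟨m, hm, hz⟩ : ∃ m ≤ n, IsPrimitiveRoot z (p ^ m) := by
    have h1 : orderOf z ∣ p ^ n := orderOf_dvd_of_pow_eq_one h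
    obtain ⟨m, hm, h2⟩ := (Nat.dvd_prime_pow hp.out).1 h1
    exact ⟨m, hm, h2 ▸ IsPrimitiveRoot.orderOf z⟩
  rcases m with _ | m
  · rw [pow_zero, IsPrimitiveRoot.one_right_iff] at hz
    rw [hz, nt_one, norm_one]
  · have h1 : nt p z = ((minpoly ℚ_[p] z).natDegree : ℚ_[p])⁻¹ • -(minpoly ℚ_[p] z).nextCoeff :=
      Algebra.normalizedTrace_minpoly ℚ_[p] z
    rw [minpoly_eq_cyclotomic hz, natDegree_cyclotomic] at h1
    have htot : 0 < Nat.totient (p ^ (m + 1)) := Nat.totient_pos.2 (pow_pos hp.out.pos _)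
    have hnc : (cyclotomic (p ^ (m + 1)) ℚ_[p]).nextCoeff =
        (cyclotomic (p ^ (m + 1)) ℚ_[p]).coeff (Nat.totient (p ^ (m + 1)) - 1) := by
      rw [nextCoeff_of_natDegree_pos, natDegree_cyclotomic]
      rw [natDegree_cyclotomic]; exact htot
    rw [hnc] at h1
    rcases m with _ | m
    · rw [h1, norm_smul, norm_neg, norm_inv]
      have h2 : ‖((Nat.totient (p ^ (0 + 1)) : ℕ) : ℚ_[p])‖ = 1 := by
        rw [zero_add, pow_one, Nat.totient_prime hp.out, Padic.norm_natCast_eq_one_iff]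
        have : p.Coprime (p - 1) := by
          rw [Nat.coprime_self_sub_right hp.out.one_le]
          exact Nat.coprime_one_right p
        exact this
      rw [h2, inv_one, one_mul]
      have h3 : (cyclotomic (p ^ (0 + 1)) ℚ_[p]) =
          (cyclotomic (p ^ (0 + 1)) ℤ).map (Int.castRingHom ℚ_[p]) := (map_cyclotomic_int _ _).symm
      rw [h3, coeff_map]
      exact Padic.norm_int_le_one _
    · have h4 : (cyclotomic (p ^ (m + 1 + 1)) ℚ_[p]).coeff (Nat.totient (p ^ (m + 1 + 1)) - 1) =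
          0 := by
        rw [cyclotomic_prime_pow_eq_geom_sum hp.out, finsetSum_coeff]
        refine Finset.sum_eq_zero fun i _ => ?_
        rw [← pow_mul, coeff_X_pow, if_neg]
        intro h5
        rw [Nat.totient_prime_pow_succ hp.out] at h5 htot
        have h6 : p ^ (m + 1) ∣ p ^ (m + 1) * (p - 1) := dvd_mul_right _ _
        have h7 : p ^ (m + 1) ∣ p ^ (m + 1) * (p - 1) - 1 := ⟨i, h5⟩
        have h8 : p ^ (m + 1) ∣ 1 := by
          have := Nat.dvd_sub h6 h7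
          rwa [Nat.sub_sub_self htot] at this
        have h9 := Nat.le_of_dvd one_pos h8
        have h10 : 1 < p ^ (m + 1) := Nat.one_lt_pow (by omega) hp.out.one_lt
        omega
      rw [h1, h4]
      simp

theorem norm_nt_mul_sub_one_pow {z : PadicAlgCl p} {n : ℕ} (h : z ^ p ^ n = 1) (i : ℕ) :
    ∀ j : ℕ, ‖nt p (z ^ j * (z - 1) ^ i)‖ ≤ 1 := by
  induction i with
  | zero =>
    intro j
    rw [pow_zero, mul_one]
    refine norm_nt_rootOfUnity (n := n) ?_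
    rw [← pow_mul, mul_comm, pow_mul, h, one_pow]
  | succ i ih =>
    intro j
    have e : z ^ j * (z - 1) ^ (i + 1) = z ^ (j + 1) * (z - 1) ^ i - z ^ j * (z - 1) ^ i := by
      ring
    rw [e, map_sub]
    rw [sub_eq_add_neg]
    refine (IsUltrametricDist.norm_add_le_max _ _).trans (max_le (ih _) ?_)
    rw [norm_neg]
    exact ih _

theorem exists_expansion {z : PadicAlgCl p} {n : ℕ} (hz : IsPrimitiveRoot z (p ^ (n + 1)))
    {a : PadicAlgCl p} (ha : a ∈ ℚ_[p]⟮z⟯) :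
    ∃ c : ℕ → ℚ_[p], a = ∑ j ∈ Finset.range (Nat.totient (p ^ (n + 1))),
      algebraMap ℚ_[p] (PadicAlgCl p) (c j) * (z - 1) ^ j := by
  have hpos : 0 < p ^ (n + 1) := pow_pos hp.out.pos _
  have hint : IsIntegral ℚ_[p] z := Algebra.IsIntegral.isIntegral z
  have h1 : a ∈ (ℚ_[p]⟮z⟯).toSubalgebra := ha
  rw [adjoin_simple_toSubalgebra_of_isAlgebraic hint.isAlgebraic,
    Algebra.adjoin_singleton_eq_range_aeval] at h1
  obtain ⟨f, hf⟩ := h1
  set q : ℚ_[p][X] := (cyclotomic (p ^ (n + 1)) ℚ_[p]).comp (X + C 1) with hq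
  have hqm : q.Monic := (cyclotomic.monic _ _).comp_X_add_C 1
  have hqd : q.natDegree = Nat.totient (p ^ (n + 1)) := by
    rw [hq, natDegree_comp, natDegree_X_add_C, mul_one, natDegree_cyclotomic]
  have hq0 : aeval (z - 1) q = 0 := by
    rw [hq, aeval_comp]
    simp only [map_add, aeval_X, map_one, sub_add_cancel]
    rw [← minpoly_eq_cyclotomic hz, minpoly.aeval]
  have hfa : aeval (z - 1) (f.comp (X + C 1)) = a := by
    rw [aeval_comp]
    simp only [map_add, aeval_X, map_one, sub_add_cancel]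
    exact hf
  refine ⟨fun j => ((f.comp (X + C 1)) %ₘ q).coeff j, ?_⟩
  have h2 : aeval (z - 1) ((f.comp (X + C 1)) %ₘ q) = a := by
    rw [aeval_modByMonic_eq_self_of_root hq0, hfa]
  have h3 : ((f.comp (X + C 1)) %ₘ q).natDegree < Nat.totient (p ^ (n + 1)) := by
    rw [← hqd]
    refine natDegree_modByMonic_lt _ hqm ?_
    intro h4
    rw [h4, natDegree_one] at hqd
    have := Nat.totient_pos.2 hpos
    omega
  rw [aeval_eq_sum_range' h3] at h2
  simp only [Algebra.smul_def] at h2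
  exact h2.symm

/-- The normalised trace is bounded on `ℚ_[p](ζ)` for every `p`-power root of unity `ζ`, with
constant `p`. -/
theorem norm_nt_le {z : PadicAlgCl p} {n : ℕ} (hz : IsPrimitiveRoot z (p ^ (n + 1)))
    {a : PadicAlgCl p} (ha : a ∈ ℚ_[p]⟮z⟯) : ‖nt p a‖ ≤ p * ‖a‖ := by
  obtain ⟨c, hc⟩ := exists_expansion hz ha
  have hp1 := one_lt_p p
  have hp0 : (0 : ℝ) < p := by linarith
  have hpow := norm_sub_one_pow_totient hz
  have hz1 : ‖z - 1‖ ≤ 1 := by
    by_contra h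
    push Not at h
    have h2 := one_lt_pow₀ h (Nat.totient_pos.2 (pow_pos hp.out.pos (n + 1))).ne'
    rw [hpow] at h2
    exact absurd (inv_lt_one_of_one_lt₀ hp1) (not_lt.2 h2.le)
  have hterm : ∀ j ∈ Finset.range (Nat.totient (p ^ (n + 1))), ‖c j‖ ≤ p * ‖a‖ := by
    intro j hj
    rw [Finset.mem_range] at hj
    have h1 := norm_term_le hz c hj
    rw [← hc, norm_mul, norm_pow] at h1
    have h2 : ‖algebraMap ℚ_[p] (PadicAlgCl p) (c j)‖ = ‖c j‖ := PadicAlgCl.norm_extends p (c j)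
    rw [h2] at h1
    have h3 : (p : ℝ)⁻¹ ≤ ‖z - 1‖ ^ j := by
      rw [← hpow]
      exact pow_le_pow_of_le_one (norm_nonneg _) hz1 hj.le
    have h4 : ‖c j‖ * (p : ℝ)⁻¹ ≤ ‖a‖ :=
      (mul_le_mul_of_nonneg_left h3 (norm_nonneg _)).trans h1
    calc ‖c j‖ = p * (‖c j‖ * (p : ℝ)⁻¹) := by field_simp
      _ ≤ p * ‖a‖ := mul_le_mul_of_nonneg_left h4 hp0.le
  have h5 : nt p a = ∑ j ∈ Finset.range (Nat.totient (p ^ (n + 1))),
      c j * nt p ((z - 1) ^ j) := by
    conv_lhs => rw [hc]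
    rw [map_sum]
    refine Finset.sum_congr rfl fun j _ => ?_
    rw [← Algebra.smul_def, map_smul, smul_eq_mul]
  rw [h5]
  refine IsUltrametricDist.norm_sum_le_of_forall_le_of_nonneg (by positivity) ?_
  intro j hj
  rw [norm_mul]
  have h6 : ‖nt p ((z - 1) ^ j)‖ ≤ 1 := by
    have := norm_nt_mul_sub_one_pow (n := n + 1) hz.pow_eq_one j 0
    rwa [pow_zero, one_mul] at this
  calc ‖c j‖ * ‖nt p ((z - 1) ^ j)‖ ≤ (p * ‖a‖) * 1 :=
        mul_le_mul (hterm j hj) h6 (norm_nonneg _) (by positivity)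
    _ = p * ‖a‖ := mul_one _

variable (p) in
/-- The field generated over `ℚ_[p]` by all roots of unity of `p`-power order. -/
noncomputable def Kinf : IntermediateField ℚ_[p] (PadicAlgCl p) :=
  adjoin ℚ_[p] {x | ∃ n : ℕ, x ^ p ^ n = 1}

theorem exists_primitive (n : ℕ) : ∃ z : PadicAlgCl p, IsPrimitiveRoot z (p ^ n) :=
  HasEnoughRootsOfUnity.exists_primitiveRoot _ _

theorem mem_adjoin_of_pow_eq_one {z : PadicAlgCl p} {n m : ℕ} (hz : IsPrimitiveRoot z (p ^ n))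
    (hmn : m ≤ n) {x : PadicAlgCl p} (hx : x ^ p ^ m = 1) : x ∈ ℚ_[p]⟮z⟯ := by
  have : NeZero (p ^ n) := ⟨pow_ne_zero _ hp.out.ne_zero⟩
  have h1 : x ^ p ^ n = 1 := by
    obtain ⟨k, rfl⟩ := Nat.exists_eq_add_of_le hmn
    rw [pow_add, pow_mul, hx, one_pow]
  obtain ⟨i, _, rfl⟩ := hz.eq_pow_of_pow_eq_one h1
  exact pow_mem (mem_adjoin_simple_self _ _) _

theorem exists_mem_adjoin {a : PadicAlgCl p} (ha : a ∈ Kinf p) :
    ∃ N : ℕ, ∀ n ≥ N, ∀ z : PadicAlgCl p, IsPrimitiveRoot z (p ^ n) → a ∈ ℚ_[p]⟮z⟯ := by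
  obtain ⟨T, hT, ha⟩ := exists_finset_of_mem_adjoin ha
  have h1 : ∀ x : T, ∃ n : ℕ, (x : PadicAlgCl p) ^ p ^ n = 1 := fun x => hT x.2
  choose f hf using h1
  refine ⟨T.attach.sup f, fun n hn z hz => ?_⟩
  have h2 : adjoin ℚ_[p] (T : Set (PadicAlgCl p)) ≤ ℚ_[p]⟮z⟯ := by
    rw [adjoin_le_iff]
    intro x hx
    exact mem_adjoin_of_pow_eq_one hz
      ((Finset.le_sup (f := f) (Finset.mem_attach T ⟨x, hx⟩)).trans hn) (hf ⟨x, hx⟩)
  exact h2 ha

/-- The normalised trace is bounded on `Kinf`. -/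
theorem norm_nt_le_of_mem {a : PadicAlgCl p} (ha : a ∈ Kinf p) : ‖nt p a‖ ≤ p * ‖a‖ := by
  obtain ⟨N, hN⟩ := exists_mem_adjoin ha
  obtain ⟨z, hz⟩ := exists_primitive (p := p) (N + 1)
  exact norm_nt_le hz (hN (N + 1) (Nat.le_succ N) z hz)

theorem gal_mem_Kinf (g : Gal(PadicAlgCl p/ℚ_[p])) {a : PadicAlgCl p} (ha : a ∈ Kinf p) :
    g a ∈ Kinf p := by
  have h : (Kinf p).map (g : PadicAlgCl p →ₐ[ℚ_[p]] PadicAlgCl p) ≤ Kinf p := by
    rw [Kinf, adjoin_map, adjoin_le_iff]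
    rintro _ ⟨x, ⟨n, hx⟩, rfl⟩
    apply subset_adjoin
    refine ⟨n, ?_⟩
    rw [← map_pow, hx, map_one]
  exact h ⟨a, ha, rfl⟩

end Pool.Agent.Helper117_HT
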