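import Mathlib
import Pool.Agent.W292.FM.Ax
import Pool.Agent.Helper117_HT.Cyc

/-!
# Tate's theorem: `H⁰(G, ℂ_p(k)) = 0` for `k ≠ 0`

`G` is the absolute Galois group of `ℚ_[p]` or a subgroup of finite index.
-/

set_option autoImplicit false

namespace Pool.Agent.Helper117_HT

open Polynomial IntermediateField Pool.Agent.W292.FM UniformSpace

variable {p : ℕ} [hp : Fact p.Prime]

variable (p) in
/-- The `p`-adic cyclotomic character of the absolute Galois group of `ℚ_[p]`. -/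
noncomputable def cyc : Gal(PadicAlgCl p/ℚ_[p]) →* ℤ_[p]ˣ :=
  (cyclotomicCharacter (PadicAlgCl p) p).comp
    (MulSemiringAction.toRingAut Gal(PadicAlgCl p/ℚ_[p]) (PadicAlgCl p))

theorem cyc_spec (g : Gal(PadicAlgCl p/ℚ_[p])) {n : ℕ} {t : PadicAlgCl p} (ht : t ^ p ^ n = 1) :
    g t = t ^ ((cyc p g).val.toZModPow n).val :=
  cyclotomicCharacter.spec p (MulSemiringAction.toRingAut Gal(PadicAlgCl p/ℚ_[p])
    (PadicAlgCl p) g) t ht

theorem toZModPow_cyc_eq {g : Gal(PadicAlgCl p/ℚ_[p])} {n : ℕ} {z : PadicAlgCl p}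
    (hz : IsPrimitiveRoot z (p ^ n)) {u : ℕ} (hu : g z = z ^ u) :
    (cyc p g).val.toZModPow n = (u : ZMod (p ^ n)) := by
  have : NeZero (p ^ n) := ⟨pow_ne_zero _ hp.out.ne_zero⟩
  have hfin : IsOfFinOrder z := isOfFinOrder_iff_pow_eq_one.2
    ⟨p ^ n, pow_pos hp.out.pos _, hz.pow_eq_one⟩
  rw [cyc_spec g hz.pow_eq_one, hfin.pow_eq_pow_iff_modEq, ← hz.eq_orderOf] at hu
  have h := (ZMod.natCast_eq_natCast_iff _ _ _).2 hu
  rwa [ZMod.natCast_zmod_val] at h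

theorem cyc_eq_one {g : Gal(PadicAlgCl p/ℚ_[p])} (hg : ∀ x ∈ Kinf p, g x = x) : cyc p g = 1 := by
  ext1
  refine PadicInt.ext_of_toZModPow.1 fun n => ?_
  obtain ⟨z, hz⟩ := exists_primitive (p := p) n
  rw [toZModPow_cyc_eq hz (u := 1) (by
    rw [pow_one]; exact hg z (subset_adjoin _ _ ⟨n, hz.pow_eq_one⟩))]
  simp

theorem exists_gal (N : ℕ) {k : ℤ} (hk : k ≠ 0) : ∃ g : Gal(PadicAlgCl p/ℚ_[p]),
    (∀ z : PadicAlgCl p, z ^ p ^ N = 1 → g z = z) ∧ cyc p g ^ k ≠ 1 := by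
  set u : ℕ := 1 + p ^ (N + 1) with hu
  have hpN : 0 < p ^ (N + 1) := pow_pos hp.out.pos _
  have hk' : k.natAbs ≠ 0 := Int.natAbs_ne_zero.2 hk
  have h1 : ((u : ℤ_[p])) ^ k.natAbs ≠ 1 := by
    have : u ^ k.natAbs ≠ 1 := (Nat.one_lt_pow hk' (by omega)).ne'
    exact_mod_cast this
  have h2 : ∃ M0 : ℕ, ((u : ℤ_[p]) ^ k.natAbs).toZModPow M0 ≠ (1 : ℤ_[p]).toZModPow M0 := by
    by_contra hcon
    push Not at hcon
    exact h1 (PadicInt.ext_of_toZModPow.1 hcon)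
  obtain ⟨M0, hM0⟩ := h2
  obtain ⟨z, hz⟩ := exists_primitive (p := p) (M0 + N + 1)
  have hcop : u.Coprime (p ^ (M0 + N + 1)) := by
    apply Nat.Coprime.pow_right
    rw [Nat.coprime_comm, Nat.Prime.coprime_iff_not_dvd hp.out]
    intro hd
    have h3 : p ∣ p ^ (N + 1) := dvd_pow_self _ (Nat.succ_ne_zero _)
    have h4 : p ∣ 1 := (Nat.dvd_add_left h3).1 hd
    exact hp.out.one_lt.ne' (Nat.dvd_one.1 h4)
  have hz' : IsPrimitiveRoot (z ^ u) (p ^ (M0 + N + 1)) := hz.pow_of_coprime u hcop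
  have hconj : IsConjRoot ℚ_[p] (z ^ u) z := by
    rw [IsConjRoot, minpoly_eq_cyclotomic hz, minpoly_eq_cyclotomic hz']
  obtain ⟨g, hg⟩ := (isConjRoot_iff_exists_algEquiv (K := ℚ_[p]) (L := PadicAlgCl p)).1 hconj
  refine ⟨g, ?_, ?_⟩
  · intro x hx
    have : NeZero (p ^ (M0 + N + 1)) := ⟨pow_ne_zero _ hp.out.ne_zero⟩
    have h3 : x ^ p ^ (M0 + N + 1) = 1 := by
      rw [show M0 + N + 1 = N + (M0 + 1) by ring, pow_add, pow_mul, hx, one_pow]
    obtain ⟨i, _, rfl⟩ := hz.eq_pow_of_pow_eq_one h3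
    rw [map_pow, hg, ← pow_mul, mul_comm u i, pow_mul, hu, pow_add, pow_one, pow_succ, pow_mul,
      hx, one_pow, mul_one]
  · intro h3
    have h4 : (cyc p g) ^ k.natAbs = 1 := by
      rcases Int.natAbs_eq k with h5 | h5
      · rw [h5, zpow_natCast] at h3; exact h3
      · rw [h5, zpow_neg, zpow_natCast, inv_eq_one] at h3; exact h3
    have h5 : (cyc p g).val.toZModPow (M0 + N + 1) = (u : ZMod (p ^ (M0 + N + 1))) :=
      toZModPow_cyc_eq hz hg
    apply hM0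
    have h6 : (cyc p g).val ^ k.natAbs = 1 := by
      rw [← Units.val_pow_eq_pow_val, h4, Units.val_one]
    rw [map_one, map_pow]
    have h7 : (u : ℤ_[p]).toZModPow M0 = (cyc p g).val.toZModPow M0 := by
      have h8 := congrArg (ZMod.castHom (pow_dvd_pow p (show M0 ≤ M0 + N + 1 by omega))
        (ZMod (p ^ M0))) h5
      have h9 : ∀ x : ℤ_[p], ZMod.castHom (pow_dvd_pow p (show M0 ≤ M0 + N + 1 by omega))
          (ZMod (p ^ M0)) (x.toZModPow (M0 + N + 1)) = x.toZModPow M0 := by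
        intro x
        exact congrArg (fun f : ℤ_[p] →+* ZMod (p ^ M0) => f x)
          (PadicInt.zmod_cast_comp_toZModPow M0 (M0 + N + 1) (by omega))
      rw [h9] at h8
      rw [h8]
      simp
    rw [h7, ← map_pow, h6, map_one]

theorem exists_alg_close (z : ℂ_[p]) {δ : ℝ} (hδ : 0 < δ) :
    ∃ α : PadicAlgCl p, ‖z - (α : ℂ_[p])‖ < δ := by
  obtain ⟨α, hα⟩ := (Completion.denseRange_coe (α := PadicAlgCl p)).exists_dist_lt z hδ
  exact ⟨α, by rwa [← dist_eq_norm]⟩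

/-- An element of `ℂ_[p]` fixed by the Galois group of `Kinf` is a limit of elements of `Kinf`. -/
theorem exists_Kinf_close (z : ℂ_[p]) (hz : ∀ g : Gal(PadicAlgCl p/ℚ_[p]),
    (∀ x ∈ Kinf p, g x = x) → cpMap p g z = z) {δ : ℝ} (hδ : 0 < δ) :
    ∃ a ∈ Kinf p, ‖z - (a : ℂ_[p])‖ ≤ δ := by
  have hp1 := one_lt_p p
  have hp0 : (0 : ℝ) < p := by linarith
  have hδ' : 0 < δ / (p : ℝ) ^ 2 := by positivity
  obtain ⟨α, hα⟩ := exists_alg_close z hδ'
  have h1 : ∀ g : Gal(PadicAlgCl p/ℚ_[p]), (∀ x ∈ Kinf p, g x = x) →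
      ‖g α - α‖ ≤ δ / (p : ℝ) ^ 2 := by
    intro g hg
    rw [← PadicComplex.norm_extends, Completion.coe_sub, ← cpMap_coe]
    have e : cpMap p g (α : ℂ_[p]) - (α : ℂ_[p]) =
        -(cpMap p g (z - (α : ℂ_[p]))) + (z - (α : ℂ_[p])) := by
      rw [map_sub, hz g hg]; ring
    rw [e]
    refine (IsUltrametricDist.norm_add_le_max _ _).trans (max_le ?_ hα.le)
    rw [norm_neg, norm_cpMap]
    exact hα.le
  obtain ⟨a, ha, h2⟩ := ax p (Kinf p) α _ hδ'.le h1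
  refine ⟨a, ha, ?_⟩
  have e : z - (a : ℂ_[p]) = (z - (α : ℂ_[p])) + ((α - a : PadicAlgCl p) : ℂ_[p]) := by
    rw [Completion.coe_sub]; ring
  rw [e]
  refine (IsUltrametricDist.norm_add_le_max _ _).trans (max_le ?_ ?_)
  · refine hα.le.trans (div_le_self hδ.le ?_)
    exact one_le_pow₀ hp1.le
  · rw [PadicComplex.norm_extends]
    refine h2.trans_eq ?_
    field_simp

theorem norm_unit (u : ℤ_[p]ˣ) : ‖((u : ℤ_[p]) : ℚ_[p])‖ = 1 := by
  rw [← PadicInt.norm_def]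
  exact PadicInt.norm_units u

/-- **Tate's theorem** over `ℚ_[p]`. -/
theorem tate {k : ℤ} (hk : k ≠ 0) (z : ℂ_[p]) (hz : ∀ g : Gal(PadicAlgCl p/ℚ_[p]),
    cpMap p g z = algebraMap ℚ_[p] ℂ_[p] (((cyc p g ^ k : ℤ_[p]ˣ) : ℤ_[p]) : ℚ_[p]) * z) :
    z = 0 := by
  by_contra hne
  have hz0 : 0 < ‖z‖ := norm_pos_iff.2 hne
  have hp1 := one_lt_p p
  have hp0 : (0 : ℝ) < p := by linarith
  have hfix : ∀ g : Gal(PadicAlgCl p/ℚ_[p]), (∀ x ∈ Kinf p, g x = x) → cpMap p g z = z := by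
    intro g hg
    rw [hz g, cyc_eq_one hg, one_zpow]
    simp
  have hsmall : ‖z‖ / (p : ℝ) ^ 2 < ‖z‖ := by
    apply div_lt_self hz0
    exact one_lt_pow₀ hp1 (by norm_num)
  -- the approximation `a`
  obtain ⟨a, ha, hza⟩ := exists_Kinf_close z hfix (δ := ‖z‖ / (p : ℝ) ^ 2) (by positivity)
  have hna : ‖a‖ = ‖z‖ := by
    have e : (a : ℂ_[p]) = z + -(z - (a : ℂ_[p])) := by ring
    have h1 : ‖-(z - (a : ℂ_[p]))‖ < ‖z‖ := by rw [norm_neg]; exact hza.trans_lt hsmall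
    rw [← PadicComplex.norm_extends, e,
      IsUltrametricDist.norm_add_eq_max_of_norm_ne_norm h1.ne', max_eq_left h1.le]
  have ha0 : a ≠ 0 := by rintro rfl; rw [norm_zero] at hna; exact hz0.ne hna
  obtain ⟨N, hN⟩ := exists_mem_adjoin ha
  obtain ⟨ζ, hζ⟩ := exists_primitive (p := p) N
  obtain ⟨γ, hγ1, hγ2⟩ := exists_gal (p := p) N hk
  have hγa : γ a = a := by
    have h1 := hN N le_rfl ζ hζ
    have h2 : ℚ_[p]⟮ζ⟯ ≤ IntermediateField.fixedField (Subgroup.zpowers γ) := by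
      rw [adjoin_simple_le_iff]
      intro τ
      have h3 : γ ζ = ζ := hγ1 ζ hζ.pow_eq_one
      obtain ⟨m, hm⟩ := τ.2
      have h4 : γ ∈ MulAction.stabilizer Gal(PadicAlgCl p/ℚ_[p]) ζ := h3
      have h5 := Subgroup.zpow_mem _ h4 m
      rw [show γ ^ m = (τ : Gal(PadicAlgCl p/ℚ_[p])) from hm] at h5
      exact h5
    exact h2 h1 ⟨γ, Subgroup.mem_zpowers γ⟩
  set w := a⁻¹ with hw
  have hwK : w ∈ Kinf p := (Kinf p).inv_mem ha
  set c : ℚ_[p] := (((cyc p γ ^ k : ℤ_[p]ˣ) : ℤ_[p]) : ℚ_[p]) with hc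
  have hc1 : c ≠ 1 := by
    intro h
    apply hγ2
    have h' : (((cyc p γ ^ k : ℤ_[p]ˣ) : ℤ_[p]) : ℚ_[p]) = ((1 : ℤ_[p]) : ℚ_[p]) := by
      rw [PadicInt.coe_one]; exact h
    exact Units.ext (PadicInt.ext h')
  have hcn : ‖c‖ = 1 := norm_unit _
  have hd : 0 < ‖1 - c‖ := norm_pos_iff.2 (sub_ne_zero.2 (Ne.symm hc1))
  -- the approximation `b`
  set η : ℝ := min (‖z‖ / (p : ℝ) ^ 2) (‖1 - c‖ * ‖z‖ / (p : ℝ) ^ 2) with hη
  have hη0 : 0 < η := lt_min (by positivity) (by positivity)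
  obtain ⟨b, hb, hzb⟩ := exists_Kinf_close z hfix hη0
  have hbw : b * w ∈ Kinf p := (Kinf p).mul_mem hb hwK
  have hnw : ‖w‖ = ‖z‖⁻¹ := by rw [hw, norm_inv, hna]
  have hab : ‖b - a‖ ≤ ‖z‖ / (p : ℝ) ^ 2 := by
    rw [← PadicComplex.norm_extends, Completion.coe_sub]
    have e : (b : ℂ_[p]) - (a : ℂ_[p]) = -(z - (b : ℂ_[p])) + (z - (a : ℂ_[p])) := by ring
    rw [e]
    refine (IsUltrametricDist.norm_add_le_max _ _).trans (max_le ?_ hza)
    rw [norm_neg]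
    exact hzb.trans (min_le_left _ _)
  -- the trace of `b * w` is close to `1`
  have hT1 : ‖nt p (b * w) - 1‖ < 1 := by
    rw [← nt_one (p := p), ← map_sub]
    refine (norm_nt_le_of_mem ((Kinf p).sub_mem hbw (Kinf p).one_mem)).trans_lt ?_
    have e : b * w - 1 = (b - a) * w := by rw [sub_mul, hw, mul_inv_cancel₀ ha0]
    rw [e, norm_mul, hnw]
    calc (p : ℝ) * (‖b - a‖ * ‖z‖⁻¹) ≤ p * (‖z‖ / (p : ℝ) ^ 2 * ‖z‖⁻¹) := by
          gcongr
      _ = (p : ℝ)⁻¹ := by field_simp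
      _ < 1 := inv_lt_one_of_one_lt₀ hp1
  have hT2 : ‖nt p (b * w)‖ = 1 := by
    have e : nt p (b * w) = 1 + (nt p (b * w) - 1) := by ring
    have h1 : ‖nt p (b * w) - 1‖ < ‖(1 : ℚ_[p])‖ := by rw [norm_one]; exact hT1
    rw [e, IsUltrametricDist.norm_add_eq_max_of_norm_ne_norm h1.ne', max_eq_left h1.le, norm_one]
  -- the trace of `b * w` is nearly multiplied by `c`
  have hγb : ‖γ b - algebraMap ℚ_[p] (PadicAlgCl p) c * b‖ ≤ η := by
    rw [← PadicComplex.norm_extends, Completion.coe_sub, Completion.coe_mul, ← cpMap_coe]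
    have e : cpMap p γ (b : ℂ_[p]) - ((algebraMap ℚ_[p] (PadicAlgCl p) c : PadicAlgCl p) : ℂ_[p]) *
        (b : ℂ_[p]) = -(cpMap p γ (z - (b : ℂ_[p]))) +
          ((algebraMap ℚ_[p] (PadicAlgCl p) c : PadicAlgCl p) : ℂ_[p]) * (z - (b : ℂ_[p])) := by
      rw [map_sub, hz γ]
      have e2 : algebraMap ℚ_[p] ℂ_[p] c =
        ((algebraMap ℚ_[p] (PadicAlgCl p) c : PadicAlgCl p) : ℂ_[p]) := rfl
      rw [← hc, e2]
      ring
    rw [e]
    refine (IsUltrametricDist.norm_add_le_max _ _).trans (max_le ?_ ?_)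
    · rw [norm_neg, norm_cpMap]; exact hzb
    · have e3 : ‖algebraMap ℚ_[p] (PadicAlgCl p) c‖ = ‖c‖ := PadicAlgCl.norm_extends p c
      rw [norm_mul, PadicComplex.norm_extends, e3, hcn, one_mul]
      exact hzb
  have hT3 : ‖(1 - c) * nt p (b * w)‖ < ‖1 - c‖ := by
    have e : (1 - c) * nt p (b * w) =
        nt p ((γ b - algebraMap ℚ_[p] (PadicAlgCl p) c * b) * w) := by
      have h1 : nt p (γ b * w) = nt p (b * w) := by
        have h2 : γ b * w = γ (b * w) := by rw [map_mul, hw, map_inv₀, hγa]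
        rw [h2, nt_gal]
      have h3 : (γ b - algebraMap ℚ_[p] (PadicAlgCl p) c * b) * w = γ b * w - c • (b * w) := by
        rw [sub_mul, Algebra.smul_def, mul_assoc]
      rw [h3, map_sub, h1, map_smul, smul_eq_mul]
      ring
    rw [e]
    have hmem : (γ b - algebraMap ℚ_[p] (PadicAlgCl p) c * b) * w ∈ Kinf p :=
      (Kinf p).mul_mem ((Kinf p).sub_mem (gal_mem_Kinf γ hb)
        ((Kinf p).mul_mem ((Kinf p).algebraMap_mem c) hb)) hwK
    refine (norm_nt_le_of_mem hmem).trans_lt ?_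
    rw [norm_mul, hnw]
    calc (p : ℝ) * (‖γ b - algebraMap ℚ_[p] (PadicAlgCl p) c * b‖ * ‖z‖⁻¹)
        ≤ p * ((‖1 - c‖ * ‖z‖ / (p : ℝ) ^ 2) * ‖z‖⁻¹) := by
          gcongr
          exact hγb.trans (min_le_right _ _)
      _ = ‖1 - c‖ * (p : ℝ)⁻¹ := by field_simp
      _ < ‖1 - c‖ * 1 := by
          apply mul_lt_mul_of_pos_left (inv_lt_one_of_one_lt₀ hp1) hd
      _ = ‖1 - c‖ := mul_one _
  rw [norm_mul, hT2, mul_one] at hT3
  exact lt_irrefl _ hT3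

/-- **Tate's theorem** for a subgroup of finite index of the absolute Galois group of `ℚ_[p]`. -/
theorem tate_finiteIndex (H : Subgroup Gal(PadicAlgCl p/ℚ_[p])) [H.FiniteIndex] {k : ℤ}
    (hk : k ≠ 0) (z : ℂ_[p]) (hz : ∀ g ∈ H,
    cpMap p g z = algebraMap ℚ_[p] ℂ_[p] (((cyc p g ^ k : ℤ_[p]ˣ) : ℤ_[p]) : ℚ_[p]) * z) :
    z = 0 := by
  classical
  by_contra hne
  set N := H.normalCore with hN
  have : N.FiniteIndex := Subgroup.finiteIndex_normalCore H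
  have : Finite (Gal(PadicAlgCl p/ℚ_[p]) ⧸ N) := Subgroup.finite_quotient_of_finiteIndex
  let e : (n : ℤ) → Gal(PadicAlgCl p/ℚ_[p]) → ℂ_[p] := fun n g =>
    algebraMap ℚ_[p] ℂ_[p] (((cyc p g ^ n : ℤ_[p]ˣ) : ℤ_[p]) : ℚ_[p])
  have he_mul : ∀ n g h, e n (g * h) = e n g * e n h := by
    intro n g h
    simp only [e]
    rw [← map_mul, map_mul (cyc p), mul_zpow]
    push_cast
    rfl
  have he_add : ∀ m n g, e (m + n) g = e m g * e n g := by
    intro m n g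
    simp only [e]
    rw [← map_mul, zpow_add]
    push_cast
    rfl
  have he_zero : ∀ g, e 0 g = 1 := by
    intro g; simp [e]
  have he_ne : ∀ n g, e n g ≠ 0 := by
    intro n g h
    have h1 := he_add n (-n) g
    rw [h, zero_mul, add_neg_cancel, he_zero] at h1
    exact one_ne_zero h1
  have he_neg : ∀ n g, e (-n) g * e n g = 1 := by
    intro n g
    rw [← he_add, neg_add_cancel, he_zero]
  have he_fix : ∀ n g h, cpMap p g (e n h) = e n h := fun n g h => cpMap_algebraMap p g _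
  let f : Gal(PadicAlgCl p/ℚ_[p]) → ℂ_[p] := fun s => e (-k) s * cpMap p s z
  have hfN : ∀ s, ∀ n ∈ N, f (s * n) = f s := by
    intro s n hn
    simp only [f]
    rw [he_mul, cpMap_mul, hz n (Subgroup.normalCore_le H hn), map_mul]
    rw [show algebraMap ℚ_[p] ℂ_[p] (((cyc p n ^ k : ℤ_[p]ˣ) : ℤ_[p]) : ℚ_[p]) = e k n from rfl,
      he_fix]
    calc e (-k) s * e (-k) n * (e k n * cpMap p s z)
        = e (-k) s * (e (-k) n * e k n) * cpMap p s z := by ring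
      _ = _ := by rw [he_neg, mul_one]
  have hfeq : ∀ s t : Gal(PadicAlgCl p/ℚ_[p]),
      (QuotientGroup.mk s : Gal(PadicAlgCl p/ℚ_[p]) ⧸ N) = QuotientGroup.mk t → f s = f t := by
    intro s t h
    rw [QuotientGroup.eq] at h
    have := hfN s _ h
    rw [mul_inv_cancel_left] at this
    exact this.symm
  have hfg : ∀ g s, cpMap p g (f s) = e k g * f (g * s) := by
    intro g s
    simp only [f]
    rw [map_mul, he_fix, he_mul, cpMap_mul]
    calc e (-k) s * cpMap p g (cpMap p s z)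
        = (e (-k) g * e k g) * (e (-k) s * cpMap p g (cpMap p s z)) := by rw [he_neg, one_mul]
      _ = _ := by ring
  let q : Gal(PadicAlgCl p/ℚ_[p]) ⧸ N → ℂ_[p] := fun x => f x.out
  have hq : ∀ g (x : Gal(PadicAlgCl p/ℚ_[p]) ⧸ N), cpMap p g (q x) = e k g * q (g • x) := by
    intro g x
    simp only [q]
    rw [hfg]
    congr 1
    apply hfeq
    rw [QuotientGroup.out_eq']
    conv_rhs => rw [← QuotientGroup.out_eq' x]
    rfl
  have := Fintype.ofFinite (Gal(PadicAlgCl p/ℚ_[p]) ⧸ N)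
  set m := Fintype.card (Gal(PadicAlgCl p/ℚ_[p]) ⧸ N) with hm
  have hm0 : m ≠ 0 := Fintype.card_ne_zero
  have hZ : ∏ x, q x = 0 := by
    refine tate (p := p) (k := k * m) (mul_ne_zero hk (by exact_mod_cast hm0)) _ fun g => ?_
    rw [map_prod]
    simp only [hq]
    rw [Finset.prod_mul_distrib, Finset.prod_const, Finset.card_univ, ← hm]
    congr 1
    · simp only [e]
      rw [← map_pow, zpow_mul, zpow_natCast]
      push_cast
      rfl
    · exact Equiv.prod_comp (MulAction.toPerm g) q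
  rw [Finset.prod_eq_zero_iff] at hZ
  obtain ⟨x, _, hx⟩ := hZ
  simp only [q, f] at hx
  rcases mul_eq_zero.1 hx with h | h
  · exact he_ne _ _ h
  · apply hne
    have h1 := congrArg norm h
    rw [norm_cpMap, norm_zero] at h1
    exact norm_eq_zero.1 h1

end Pool.Agent.Helper117_HT
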