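import Mathlib
import Pool.Agent.W292.FM.Tilt
import Pool.Agent.Helper117_HT.Tate

/-!
# The kernel of Fontaine's map `θ` and the Galois action on a generator

`om = ∑ [ε^(1/p)]^i` generates the kernel of `θ : W(R♭) → R`, where `R` is the ring of integers of
`ℂ_[p]`, and for `g` in the absolute Galois group of `ℚ_[p]` one has `g om = u * om` with
`θ u * g κ = χ(g) κ`, where `κ = ζ_p - 1` and `χ` is the cyclotomic character.
-/

set_option autoImplicit false
set_option linter.unusedSectionVars false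

namespace Pool.Agent.Helper117_HT

open Pool.Agent.W292.FM Ideal WittVector

variable {p : ℕ} [hp : Fact p.Prime]

theorem seqT_norm_pow (x : TT p) (n : ℕ) :
    ‖((seqT x n : 𝓞_ℂ_[p]) : ℂ_[p])‖ ^ p ^ n = ‖((x.untilt : 𝓞_ℂ_[p]) : ℂ_[p])‖ := by
  have h1 := pow_ppow_eq (a := seqT x) (seqT_succ_pow x) n
  have := congrArg (fun y : 𝓞_ℂ_[p] => ‖(y : ℂ_[p])‖) h1
  simpa [seqT_zero] using this

theorem dvd_of_norm_le {x y : TT p} (hy : ((y.untilt : 𝓞_ℂ_[p]) : ℂ_[p]) ≠ 0)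
    (h : ‖((x.untilt : 𝓞_ℂ_[p]) : ℂ_[p])‖ ≤ ‖((y.untilt : 𝓞_ℂ_[p]) : ℂ_[p])‖) : y ∣ x := by
  have hpos : ∀ n, 0 < ‖((seqT y n : 𝓞_ℂ_[p]) : ℂ_[p])‖ := by
    intro n
    rcases (norm_nonneg ((seqT y n : 𝓞_ℂ_[p]) : ℂ_[p])).lt_or_eq with h1 | h1
    · exact h1
    · exfalso
      have h2 := seqT_norm_pow y n
      rw [← h1, zero_pow (pow_ne_zero _ hp.out.ne_zero)] at h2
      exact hy (norm_eq_zero.1 h2.symm)
  have hn : ∀ n, ‖((seqT x n : 𝓞_ℂ_[p]) : ℂ_[p])‖ ≤ ‖((seqT y n : 𝓞_ℂ_[p]) : ℂ_[p])‖ := by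
    intro n
    have h3 : ‖((seqT x n : 𝓞_ℂ_[p]) : ℂ_[p])‖ ^ p ^ n ≤
        ‖((seqT y n : 𝓞_ℂ_[p]) : ℂ_[p])‖ ^ p ^ n := by
      rw [seqT_norm_pow, seqT_norm_pow]; exact h
    exact le_of_pow_le_pow_left₀ (pow_ne_zero _ hp.out.ne_zero) (norm_nonneg _) h3
  let b : ℕ → 𝓞_ℂ_[p] := fun n => ⟨(seqT x n : ℂ_[p]) / (seqT y n : ℂ_[p]), by
    rw [mem_int_iff, norm_div, div_le_one (hpos n)]; exact hn n⟩
  have hb : ∀ n, b (n + 1) ^ p = b n := by
    intro n
    apply Subtype.ext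
    have h1 : ((seqT x (n + 1) : 𝓞_ℂ_[p]) : ℂ_[p]) ^ p = (seqT x n : ℂ_[p]) := by
      rw [← seqT_succ_pow x n]; simp
    have h2 : ((seqT y (n + 1) : 𝓞_ℂ_[p]) : ℂ_[p]) ^ p = (seqT y n : ℂ_[p]) := by
      rw [← seqT_succ_pow y n]; simp
    simp only [b, SubmonoidClass.mk_pow, div_pow, h1, h2]
  have hbp : ∀ n, seqT y n * b n = seqT x n := by
    intro n
    apply Subtype.ext
    have : ((seqT y n * b n : 𝓞_ℂ_[p]) : ℂ_[p]) = (seqT y n : ℂ_[p]) * (b n : ℂ_[p]) := by simp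
    rw [this]
    exact mul_div_cancel₀ _ (norm_pos_iff.1 (hpos n))
  refine ⟨mkT b hb, ?_⟩
  refine Perfection.ext fun n => ?_
  change PreTilt.coeff n x = PreTilt.coeff n (y * mkT b hb)
  rw [map_mul, coeff_mkT, ← mk_seqT x n, ← mk_seqT y n, ← map_mul, hbp]

/-! ### the compatible system of roots of unity -/

theorem exists_zseq : ∃ z : ℕ → PadicAlgCl p, (∀ n, z (n + 1) ^ p = z n) ∧
    ∀ n, IsPrimitiveRoot (z n) (p ^ n) := by
  have hroot : ∀ y : PadicAlgCl p, ∃ w : PadicAlgCl p, w ^ p = y := fun y =>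
    IsAlgClosed.exists_pow_nat_eq y hp.out.pos
  choose f hf using hroot
  obtain ⟨z1, hz1⟩ := exists_primitive (p := p) 1
  rw [pow_one] at hz1
  let h : ℕ → PadicAlgCl p := fun n => Nat.rec z1 (fun _ y => f y) n
  have hs : ∀ n, h (n + 1) ^ p = h n := fun n => hf _
  have h0 : h 0 = z1 := rfl
  have hpp : ∀ n, h n ^ p ^ n = z1 := by
    intro n
    induction n with
    | zero => simp [h0]
    | succ n ih => rw [pow_succ', pow_mul, hs, ih]
  have hprim : ∀ n, IsPrimitiveRoot (h n) (p ^ (n + 1)) := by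
    intro n
    have h1 : ¬ h n ^ p ^ n = 1 := by rw [hpp]; exact hz1.ne_one hp.out.one_lt
    have h2 : h n ^ p ^ (n + 1) = 1 := by rw [pow_succ, pow_mul, hpp, hz1.pow_eq_one]
    have h3 := orderOf_eq_prime_pow h1 h2
    rw [← h3]
    exact IsPrimitiveRoot.orderOf _
  refine ⟨fun n => Nat.casesOn n 1 h, fun n => ?_, fun n => ?_⟩
  · rcases n with _ | n
    · exact hz1.pow_eq_one
    · exact hs n
  · rcases n with _ | n
    · rw [pow_zero]; exact IsPrimitiveRoot.one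
    · exact hprim n

variable (p) in
/-- A compatible system of primitive `p ^ n`-th roots of unity. -/
noncomputable def zs : ℕ → PadicAlgCl p := (exists_zseq (p := p)).choose

theorem zs_succ (n : ℕ) : zs p (n + 1) ^ p = zs p n := (exists_zseq (p := p)).choose_spec.1 n

theorem zs_prim (n : ℕ) : IsPrimitiveRoot (zs p n) (p ^ n) :=
  (exists_zseq (p := p)).choose_spec.2 n

theorem norm_zs (n : ℕ) : ‖zs p n‖ = 1 :=
  norm_rootOfUnity (pow_ne_zero n hp.out.ne_zero) (zs_prim n).pow_eq_one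

variable (p) in
/-- The roots of unity as elements of the ring of integers. -/
noncomputable def za (n : ℕ) : 𝓞_ℂ_[p] := ⟨(zs p n : ℂ_[p]), by
  rw [mem_int_iff, PadicComplex.norm_extends, norm_zs]⟩

variable (p) in
/-- The inverses of the roots of unity as elements of the ring of integers. -/
noncomputable def zb (n : ℕ) : 𝓞_ℂ_[p] := ⟨((zs p n)⁻¹ : PadicAlgCl p), by
  rw [mem_int_iff, PadicComplex.norm_extends, norm_inv, norm_zs, inv_one]⟩

theorem coe_za (n : ℕ) : ((za p n : 𝓞_ℂ_[p]) : ℂ_[p]) = (zs p n : ℂ_[p]) := rfl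

theorem za_succ (n : ℕ) : za p (n + 1) ^ p = za p n := by
  apply Subtype.ext
  rw [SubmonoidClass.coe_pow, coe_za, coe_za, ← zs_succ n, PadicComplex.coe_eq,
    PadicComplex.coe_eq, map_pow]

theorem zb_succ (n : ℕ) : zb p (n + 1) ^ p = zb p n := by
  apply Subtype.ext
  rw [SubmonoidClass.coe_pow]
  change (((zs p (n + 1))⁻¹ : PadicAlgCl p) : ℂ_[p]) ^ p = (((zs p n)⁻¹ : PadicAlgCl p) : ℂ_[p])
  rw [← zs_succ n, ← inv_pow, PadicComplex.coe_eq, PadicComplex.coe_eq, map_pow]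

theorem za_mul_zb (n : ℕ) : za p n * zb p n = 1 := by
  apply Subtype.ext
  change (zs p n : ℂ_[p]) * (((zs p n)⁻¹ : PadicAlgCl p) : ℂ_[p]) = 1
  rw [← UniformSpace.Completion.coe_mul, mul_inv_cancel₀]
  · rfl
  · intro h
    have := norm_zs (p := p) n
    rw [h, norm_zero] at this
    exact zero_ne_one this

theorem za_zero : za p 0 = 1 := by
  have h := (zs_prim (p := p) 0)
  rw [pow_zero, IsPrimitiveRoot.one_right_iff] at h
  apply Subtype.ext
  rw [coe_za, h]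
  rfl

variable (p) in
/-- `ε` -/
noncomputable def ep : TT p := mkT (za p) za_succ

variable (p) in
/-- `ε^(1/p)` -/
noncomputable def ep1 : TT p := mkT (fun n => za p (n + 1)) (fun n => za_succ (n + 1))

theorem ep1_pow : ep1 p ^ p = ep p := by
  refine Perfection.ext fun n => ?_
  change PreTilt.coeff n (ep1 p ^ p) = PreTilt.coeff n (ep p)
  rw [map_pow, ep, ep1, coeff_mkT, coeff_mkT, ← map_pow, za_succ]

theorem untilt_ep1 : (ep1 p).untilt = za p 1 := by rw [ep1, untilt_mkT]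

/-- the norm of `ζ_(p^2) - 1` -/
theorem norm_za_two : ‖((za p 2 : 𝓞_ℂ_[p]) : ℂ_[p]) - 1‖ ^ (p * (p - 1)) = (p : ℝ)⁻¹ := by
  have h := norm_sub_one_pow_totient (zs_prim (p := p) 2)
  rw [Nat.totient_prime_pow_succ hp.out, pow_one] at h
  rw [← h, coe_za]
  have : (zs p 2 : ℂ_[p]) - 1 = ((zs p 2 - 1 : PadicAlgCl p) : ℂ_[p]) := by
    rw [UniformSpace.Completion.coe_sub]; rfl
  rw [this, PadicComplex.norm_extends]

theorem norm_p_lt_za_two : ‖(p : ℂ_[p])‖ < ‖((za p 2 : 𝓞_ℂ_[p]) : ℂ_[p]) - 1‖ := by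
  have h := norm_za_two (p := p)
  have hp1 := one_lt_p p
  have hp0 : (0 : ℝ) < (p : ℝ)⁻¹ := inv_pos.2 (by linarith)
  have hp1' : (p : ℝ)⁻¹ < 1 := inv_lt_one_of_one_lt₀ hp1
  have h2 : 2 ≤ p * (p - 1) := by
    have := hp.out.two_le
    obtain ⟨q, hq⟩ : ∃ q, p = q + 2 := ⟨p - 2, by omega⟩
    rw [hq]
    have : q + 2 - 1 = q + 1 := by omega
    rw [this]; nlinarith
  rw [norm_p]
  by_contra hcon
  push Not at hcon
  have h3 : ‖((za p 2 : 𝓞_ℂ_[p]) : ℂ_[p]) - 1‖ ^ (p * (p - 1)) ≤ (p : ℝ)⁻¹ ^ (p * (p - 1)) :=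
    pow_le_pow_left₀ (norm_nonneg _) hcon _
  rw [h] at h3
  have h4 : (p : ℝ)⁻¹ ^ (p * (p - 1)) ≤ (p : ℝ)⁻¹ ^ 2 :=
    pow_le_pow_of_le_one hp0.le hp1'.le h2
  nlinarith

theorem norm_untilt_pi : ‖(((ep1 p - 1).untilt : 𝓞_ℂ_[p]) : ℂ_[p])‖ ^ (p - 1) = (p : ℝ)⁻¹ := by
  have h1 : Ideal.Quotient.mk (span {(p : 𝓞_ℂ_[p])}) (seqT (ep1 p - 1) 1 - (za p 2 - 1)) = 0 := by
    rw [map_sub, mk_seqT, map_sub, map_sub, map_one, map_one, ep1, coeff_mkT, sub_self]
  rw [mk_eq_zero_iff] at h1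
  have h2 : ‖((seqT (ep1 p - 1) 1 : 𝓞_ℂ_[p]) : ℂ_[p])‖ = ‖((za p 2 : 𝓞_ℂ_[p]) : ℂ_[p]) - 1‖ := by
    have h3 := h1.trans_lt norm_p_lt_za_two
    have e : ((seqT (ep1 p - 1) 1 : 𝓞_ℂ_[p]) : ℂ_[p]) =
        (((za p 2 : 𝓞_ℂ_[p]) : ℂ_[p]) - 1) +
          ((seqT (ep1 p - 1) 1 - (za p 2 - 1) : 𝓞_ℂ_[p]) : ℂ_[p]) := by
      push_cast
      ring
    rw [e, IsUltrametricDist.norm_add_eq_max_of_norm_ne_norm h3.ne', max_eq_left h3.le]
  have h3 := seqT_norm_pow (ep1 p - 1) 1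
  rw [h2, pow_one] at h3
  rw [← h3, ← pow_mul, norm_za_two]

variable (p) in
/-- The generator of `ker θ`. -/
noncomputable def om : AI p := ∑ i ∈ Finset.range p, (teichmuller p (ep1 p)) ^ i

variable (p) in
/-- the element `[ε^(1/p)] - 1` -/
noncomputable def ka : AI p := teichmuller p (ep1 p) - 1

theorem om_mul_ka : om p * ka p = teichmuller p (ep p) - 1 := by
  rw [om, ka, geom_sum_mul, ← map_pow, ep1_pow]

theorem ep1_sub_one_ne_zero : ep1 p - 1 ≠ 0 := by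
  intro h
  have h1 := norm_untilt_pi (p := p)
  have h3 : ((ep1 p).untilt : 𝓞_ℂ_[p]) = 1 := by
    rw [sub_eq_zero.1 h]; simp
  rw [untilt_ep1] at h3
  have h4 := congrArg (fun x : 𝓞_ℂ_[p] => (x : ℂ_[p])) h3
  simp only [coe_za] at h4
  have h5 : zs p 1 = 1 := UniformSpace.Completion.coe_injective _ (by
    rw [h4]; rfl)
  have h6 := zs_prim (p := p) 1
  rw [h5, pow_one] at h6
  have h7 := h6.eq_orderOf
  rw [orderOf_one] at h7
  exact hp.out.one_lt.ne' h7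

theorem om_coeff : (om p).coeff 0 = (ep1 p - 1) ^ (p - 1) := by
  have h1 : (om p).coeff 0 = ∑ i ∈ Finset.range p, ep1 p ^ i := by
    change WittVector.constantCoeff (om p) = _
    rw [om, map_sum]
    refine Finset.sum_congr rfl fun i _ => ?_
    rw [map_pow]
    congr 1
  rw [h1]
  apply mul_right_cancel₀ (ep1_sub_one_ne_zero (p := p))
  rw [geom_sum_mul, ← pow_succ, Nat.sub_add_cancel hp.out.one_le, sub_pow_char, one_pow]

theorem norm_untilt_om : ‖((((om p).coeff 0).untilt : 𝓞_ℂ_[p]) : ℂ_[p])‖ = ‖(p : ℂ_[p])‖ := by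
  rw [om_coeff, map_pow, SubmonoidClass.coe_pow, norm_pow, norm_untilt_pi, norm_p]

theorem om_coeff_dvd {x : TT p} (hx : PreTilt.coeff 0 x = 0) : (om p).coeff 0 ∣ x := by
  apply dvd_of_norm_le
  · rw [← norm_ne_zero_iff, norm_untilt_om]
    exact (norm_p_pos p).ne'
  · rw [norm_untilt_om, ← mk_eq_zero_iff]
    have := mk_seqT x 0
    rw [seqT_zero] at this
    rw [this, hx]

theorem theta_om : fontaineTheta 𝓞_ℂ_[p] p (om p) = 0 := by
  rw [om, map_sum]
  simp only [map_pow, fontaineTheta_teichmuller, untilt_ep1]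
  apply Subtype.ext
  push_cast
  rw [coe_za]
  have h := (zs_prim (p := p) 1)
  rw [pow_one] at h
  have h2 := h.geom_sum_eq_zero hp.out.one_lt
  have h3 := congrArg (fun x : PadicAlgCl p => (x : ℂ_[p])) h2
  rw [show ((0 : PadicAlgCl p) : ℂ_[p]) = 0 from rfl] at h3
  rw [← h3, PadicComplex.coe_eq, PadicComplex.coe_eq, map_sum]
  refine Finset.sum_congr rfl fun i _ => ?_
  rw [map_pow]

theorem p_ne_zero_int : (p : 𝓞_ℂ_[p]) ≠ 0 := by
  intro h
  have := congrArg (fun x : 𝓞_ℂ_[p] => (x : ℂ_[p])) h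
  exact p_ne_zero p (by simpa using this)

/-- `om` divides every element of `ker θ`. -/
theorem om_dvd {y : AI p} (hy : fontaineTheta 𝓞_ℂ_[p] p y = 0) : om p ∣ y := by
  have hstep : ∀ y : AI p, fontaineTheta 𝓞_ℂ_[p] p y = 0 →
      ∃ z y' : AI p, y = om p * z + p * y' ∧ fontaineTheta 𝓞_ℂ_[p] p y' = 0 := by
    intro y hy
    have h1 : PreTilt.coeff 0 (y.coeff 0) = 0 := by
      rw [← mk_fontaineTheta, hy, map_zero]
    obtain ⟨z0, hz0⟩ := om_coeff_dvd h1
    have h2 : (y - om p * teichmuller p z0).coeff 0 = 0 := by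
      change WittVector.constantCoeff (y - om p * teichmuller p z0) = 0
      rw [map_sub, map_mul]
      change y.coeff 0 - (om p).coeff 0 * (teichmuller p z0).coeff 0 = 0
      rw [teichmuller_coeff_zero, hz0, sub_self]
    rw [← mem_span_p_iff_coeff_zero_eq_zero, Ideal.mem_span_singleton] at h2
    obtain ⟨y', hy'⟩ := h2
    refine ⟨teichmuller p z0, y', by rw [← hy']; ring, ?_⟩
    have h3 := congrArg (fontaineTheta 𝓞_ℂ_[p] p) hy'
    rw [map_sub, hy, map_mul, theta_om, zero_mul, sub_zero, map_mul, map_natCast] at h3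
    exact (mul_eq_zero.1 h3.symm).resolve_left p_ne_zero_int
  choose! fz fy h1 h2 using hstep
  let ys : ℕ → AI p := fun n => Nat.rec y (fun _ x => fy x) n
  have hys0 : ys 0 = y := rfl
  have hyss : ∀ n, ys (n + 1) = fy (ys n) := fun n => rfl
  have hys : ∀ n, fontaineTheta 𝓞_ℂ_[p] p (ys n) = 0 := by
    intro n
    induction n with
    | zero => exact hy
    | succ n ih => rw [hyss]; exact h2 _ ih
  let s : ℕ → AI p := fun n => ∑ i ∈ Finset.range n, (p : AI p) ^ i * fz (ys i)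
  have hs : ∀ n, y = om p * s n + (p : AI p) ^ n * ys n := by
    intro n
    induction n with
    | zero => simp [s, hys0]
    | succ n ih =>
      have h3 := h1 (ys n) (hys n)
      have h4 : s (n + 1) = s n + (p : AI p) ^ n * fz (ys n) := Finset.sum_range_succ _ _
      rw [h4, hyss]
      calc y = om p * s n + (p : AI p) ^ n * ys n := ih
        _ = om p * s n + (p : AI p) ^ n * (om p * fz (ys n) + p * fy (ys n)) := by rw [← h3]
        _ = _ := by ring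
  have hcau : ∀ {m n : ℕ}, m ≤ n →
      s m ≡ s n [SMOD (span {(p : AI p)} ^ m • ⊤ : Submodule (AI p) (AI p))] := by
    intro m n hmn
    rw [SModEq.sub_mem, smul_eq_mul, Ideal.mul_top, Ideal.span_singleton_pow,
      Ideal.mem_span_singleton]
    obtain ⟨k, rfl⟩ := Nat.exists_eq_add_of_le hmn
    have h5 : s (m + k) = s m + ∑ i ∈ Finset.range k, (p : AI p) ^ (m + i) * fz (ys (m + i)) :=
      Finset.sum_range_add _ _ _
    rw [h5]
    have h6 : s m - (s m + ∑ i ∈ Finset.range k, (p : AI p) ^ (m + i) * fz (ys (m + i))) =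
        -∑ i ∈ Finset.range k, (p : AI p) ^ (m + i) * fz (ys (m + i)) := by ring
    rw [h6, dvd_neg]
    refine Finset.dvd_sum fun i _ => ?_
    rw [pow_add, mul_assoc]
    exact dvd_mul_right _ _
  obtain ⟨L, hL⟩ := IsPrecomplete.prec (isAdicCompleteIdealSpanP (p := p) (k := TT p)).toIsPrecomplete hcau
  refine ⟨L, ?_⟩
  rw [← sub_eq_zero]
  refine IsHausdorff.haus (isAdicCompleteIdealSpanP (p := p) (k := TT p)).toIsHausdorff _ fun n => ?_
  rw [SModEq.zero, smul_eq_mul, Ideal.mul_top]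
  have h7 := hL n
  rw [SModEq.sub_mem, smul_eq_mul, Ideal.mul_top] at h7
  have h8 : y - om p * L = om p * (s n - L) + (p : AI p) ^ n * ys n := by
    conv_lhs => rw [hs n]
    ring
  rw [h8]
  refine Ideal.add_mem _ (Ideal.mul_mem_left _ _ h7) ?_
  rw [Ideal.span_singleton_pow, Ideal.mem_span_singleton]
  exact dvd_mul_right _ _

end Pool.Agent.Helper117_HT
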