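import Mathlib
import Pool.Agent.Helper117_HT.Theta

/-!
# The Galois action on the generator of `ker θ`
-/

set_option autoImplicit false
set_option linter.unusedSectionVars false

namespace Pool.Agent.Helper117_HT

open Pool.Agent.W292.FM Ideal WittVector

variable {p : ℕ} [hp : Fact p.Prime]

theorem tiltMap_mkT (e : 𝓞_ℂ_[p] ≃+* 𝓞_ℂ_[p]) (a : ℕ → 𝓞_ℂ_[p]) (ha : ∀ n, a (n + 1) ^ p = a n) :
    tiltMap p e (mkT a ha) = mkT (fun n => e (a n)) (fun n => by rw [← map_pow, ha]) := by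
  refine Perfection.ext fun n => ?_
  change PreTilt.coeff n _ = PreTilt.coeff n _
  rw [coeff_tiltMap, coeff_mkT, coeff_mkT, modPMap_mk]

theorem za_add_pow (m k : ℕ) : za p (m + k) ^ p ^ k = za p m := by
  induction k with
  | zero => simp
  | succ k ih => rw [← add_assoc, pow_succ', pow_mul, za_succ, ih]

theorem zb_add_pow (m k : ℕ) : zb p (m + k) ^ p ^ k = zb p m := by
  induction k with
  | zero => simp
  | succ k ih => rw [← add_assoc, pow_succ', pow_mul, zb_succ, ih]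

/-- the natural number approximating the cyclotomic character modulo `p ^ k` -/
noncomputable def cn (g : Gal(PadicAlgCl p/ℚ_[p])) (k : ℕ) : ℕ :=
  ((cyc p g).val.toZModPow k).val

theorem intMap_za (g : Gal(PadicAlgCl p/ℚ_[p])) (k : ℕ) :
    intMap p g (za p k) = za p k ^ cn g k := by
  apply Subtype.ext
  rw [coe_intMap, coe_za, cpMap_coe, cyc_spec g (zs_prim k).pow_eq_one, SubmonoidClass.coe_pow,
    coe_za, PadicComplex.coe_eq, PadicComplex.coe_eq, map_pow]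
  rfl

theorem exists_eps_decomp (g : Gal(PadicAlgCl p/ℚ_[p])) (k : ℕ) :
    ∃ e : TT p, e.untilt = 1 ∧
      tiltMap p (intMap p g) (ep p) = ep p ^ cn g k * e ^ p ^ k := by
  let a : ℕ → 𝓞_ℂ_[p] := fun m => intMap p g (za p (m + k)) * zb p (m + k) ^ cn g k
  have ha : ∀ m, a (m + 1) ^ p = a m := by
    intro m
    simp only [a]
    rw [mul_pow, ← map_pow, ← pow_mul, mul_comm (cn g k) p, pow_mul,
      show m + 1 + k = (m + k) + 1 by ring, za_succ, zb_succ]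
  refine ⟨mkT a ha, ?_, ?_⟩
  · rw [untilt_mkT]
    simp only [a, zero_add]
    rw [intMap_za, ← mul_pow, za_mul_zb, one_pow]
  · rw [ep, tiltMap_mkT]
    refine Perfection.ext fun m => ?_
    change PreTilt.coeff m _ = PreTilt.coeff m _
    rw [map_mul, map_pow, map_pow, coeff_mkT, coeff_mkT, coeff_mkT, ← map_pow, ← map_pow,
      ← map_mul]
    congr 1
    simp only [a]
    rw [mul_pow, ← map_pow, za_add_pow, ← pow_mul, mul_comm (cn g k) (p ^ k), pow_mul,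
      zb_add_pow]
    calc intMap p g (za p m) = intMap p g (za p m) * (za p m * zb p m) ^ cn g k := by
          rw [za_mul_zb, one_pow, mul_one]
      _ = _ := by rw [mul_pow]; ring

theorem one_add_pow_eq {S : Type*} [CommRing S] (a : S) (n : ℕ) :
    ∃ r : S, (1 + a) ^ n = 1 + n * a + a ^ 2 * r := by
  induction n with
  | zero => exact ⟨0, by simp⟩
  | succ n ih =>
    obtain ⟨r, hr⟩ := ih
    refine ⟨r + n + a * r, ?_⟩
    rw [pow_succ, hr]
    push_cast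
    ring

theorem om_ne_zero : om p ≠ 0 := by
  intro h
  have h1 := norm_untilt_om (p := p)
  rw [h] at h1
  have h2 : ((0 : AI p).coeff 0) = 0 := by simp
  have h3 := om_mul_ka (p := p)
  rw [h, zero_mul] at h3
  have h4 : (1 : AI p) = teichmuller p (ep p) := (sub_eq_zero.1 h3.symm).symm
  have h5 : (ep1 p) ^ p = 1 := by
    rw [ep1_pow]
    have h6 := congrArg (fun x : AI p => x.coeff 0) h4
    simp only [teichmuller_coeff_zero] at h6
    rw [← h6]
    simp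
  have h7 : (ep1 p - 1) ^ p = 0 := by rw [sub_pow_char, h5, one_pow, sub_self]
  exact ep1_sub_one_ne_zero (p := p) (pow_eq_zero_iff hp.out.ne_zero |>.1 h7)

variable (p) in
/-- `κ = ζ_p - 1` -/
noncomputable def kap : ℂ_[p] := (za p 1 : ℂ_[p]) - 1

theorem theta_ka : ((fontaineTheta 𝓞_ℂ_[p] p (ka p) : 𝓞_ℂ_[p]) : ℂ_[p]) = kap p := by
  rw [ka, map_sub, map_one, fontaineTheta_teichmuller, untilt_ep1, kap]
  rfl

theorem kap_ne_zero : kap p ≠ 0 := by
  intro h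
  rw [kap, sub_eq_zero, coe_za] at h
  have h5 : zs p 1 = 1 := UniformSpace.Completion.coe_injective _ (by rw [h]; rfl)
  have h6 := zs_prim (p := p) 1
  rw [h5, pow_one] at h6
  have h7 := h6.eq_orderOf
  rw [orderOf_one] at h7
  exact hp.out.one_lt.ne' h7

theorem norm_kap_le : ‖kap p‖ ≤ 1 := by
  rw [← theta_ka]
  exact norm_int_le p _

theorem norm_cn_sub (g : Gal(PadicAlgCl p/ℚ_[p])) (k : ℕ) :
    ‖(cn g k : ℂ_[p]) - algebraMap ℚ_[p] ℂ_[p] ((cyc p g : ℤ_[p]) : ℚ_[p])‖ ≤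
      ‖(p : ℂ_[p])‖ ^ k := by
  have : NeZero (p ^ k) := ⟨pow_ne_zero _ hp.out.ne_zero⟩
  have h1 : (cn g k : ℂ_[p]) - algebraMap ℚ_[p] ℂ_[p] ((cyc p g : ℤ_[p]) : ℚ_[p]) =
      algebraMap ℚ_[p] ℂ_[p] ((((cn g k : ℤ_[p]) - (cyc p g : ℤ_[p]) : ℤ_[p])) : ℚ_[p]) := by
    rw [PadicInt.coe_sub, map_sub, PadicInt.coe_natCast, map_natCast]
  have h2 : ‖((cn g k : ℤ_[p]) - (cyc p g : ℤ_[p]) : ℤ_[p])‖ ≤ (p : ℝ) ^ (-k : ℤ) := by
    rw [PadicInt.norm_le_pow_iff_mem_span_pow, ← PadicInt.ker_toZModPow, RingHom.mem_ker,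
      map_sub, map_natCast, cn, ZMod.natCast_zmod_val, sub_self]
  rw [h1]
  have h3 : ∀ x : ℚ_[p], ‖algebraMap ℚ_[p] ℂ_[p] x‖ = ‖x‖ := fun x => PadicComplex.norm_extends' p x
  rw [h3, ← PadicInt.norm_def, norm_p]
  refine h2.trans_eq ?_
  rw [zpow_neg, zpow_natCast, inv_pow]

/-- The Galois action on the generator `om` of `ker θ`. -/
theorem exists_cocycle (g : Gal(PadicAlgCl p/ℚ_[p])) : ∃ u : AI p,
    WittVector.map (tiltMap p (intMap p g)) (om p) = u * om p ∧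
    ((fontaineTheta 𝓞_ℂ_[p] p u : 𝓞_ℂ_[p]) : ℂ_[p]) * cpMap p g (kap p) =
      algebraMap ℚ_[p] ℂ_[p] ((cyc p g : ℤ_[p]) : ℚ_[p]) * kap p := by
  have h0 : fontaineTheta 𝓞_ℂ_[p] p (WittVector.map (tiltMap p (intMap p g)) (om p)) = 0 := by
    rw [theta_map, theta_om, map_zero]
  obtain ⟨u, hu⟩ := om_dvd h0
  refine ⟨u, by rw [hu]; ring, ?_⟩
  set G : AI p →+* AI p := WittVector.map (tiltMap p (intMap p g)) with hG
  have hmain : ∀ k : ℕ, ∃ y : 𝓞_ℂ_[p],
      fontaineTheta 𝓞_ℂ_[p] p u * intMap p g (fontaineTheta 𝓞_ℂ_[p] p (ka p)) =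
        cn g k * fontaineTheta 𝓞_ℂ_[p] p (ka p) + (p : 𝓞_ℂ_[p]) ^ k * y := by
    intro k
    obtain ⟨e, he1, he2⟩ := exists_eps_decomp g k
    have he3 : fontaineTheta 𝓞_ℂ_[p] p (teichmuller p e - 1) = 0 := by
      rw [map_sub, map_one, fontaineTheta_teichmuller, he1, sub_self]
    obtain ⟨y, hy⟩ := om_dvd he3
    have h1 : G (om p * ka p) = (1 + om p * ka p) ^ cn g k * (1 + om p * y) ^ p ^ k - 1 := by
      rw [← hy, om_mul_ka, map_sub, map_one, hG, map_teichmuller, he2, map_mul, map_pow, map_pow]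
      ring
    obtain ⟨r, hr⟩ := one_add_pow_eq (om p * ka p) (cn g k)
    obtain ⟨s, hs⟩ := one_add_pow_eq (om p * y) (p ^ k)
    rw [hr, hs, map_mul, hu] at h1
    have h2 : u * G (ka p) = cn g k * ka p + p ^ k * y + om p *
        (cn g k * p ^ k * ka p * y + y ^ 2 * s + ka p ^ 2 * r + cn g k * ka p * om p * y ^ 2 * s +
          ka p ^ 2 * r * om p * (p ^ k * y) + ka p ^ 2 * r * om p ^ 2 * y ^ 2 * s) := by
      apply mul_left_cancel₀ (om_ne_zero (p := p))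
      calc om p * (u * G (ka p)) = om p * u * G (ka p) := by ring
        _ = _ := by
          rw [h1]
          push_cast
          ring
    have h3 := congrArg (fontaineTheta 𝓞_ℂ_[p] p) h2
    rw [map_add _ (_ + _) (_ * _), map_mul _ (om p), theta_om, zero_mul, add_zero, map_add,
      map_mul, map_mul, map_mul, map_pow, map_natCast, map_natCast, hG, theta_map] at h3
    exact ⟨fontaineTheta 𝓞_ℂ_[p] p y, h3⟩
  rw [← sub_eq_zero, ← norm_le_zero_iff]
  refine ge_of_tendsto' (tendsto_norm_p_pow p) fun k => ?_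
  obtain ⟨y, hy⟩ := hmain k
  have h4 := congrArg (fun x : 𝓞_ℂ_[p] => (x : ℂ_[p])) hy
  simp only [MulMemClass.coe_mul, AddMemClass.coe_add, coe_intMap, theta_ka] at h4
  have h5 : ((cn g k : 𝓞_ℂ_[p]) : ℂ_[p]) = (cn g k : ℂ_[p]) := by push_cast; rfl
  have h6 : (((p : 𝓞_ℂ_[p]) ^ k : 𝓞_ℂ_[p]) : ℂ_[p]) = (p : ℂ_[p]) ^ k := by push_cast; rfl
  rw [h5, h6] at h4
  rw [h4]
  have e : (cn g k : ℂ_[p]) * kap p + (p : ℂ_[p]) ^ k * (y : ℂ_[p]) -
      algebraMap ℚ_[p] ℂ_[p] ((cyc p g : ℤ_[p]) : ℚ_[p]) * kap p =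
      ((cn g k : ℂ_[p]) - algebraMap ℚ_[p] ℂ_[p] ((cyc p g : ℤ_[p]) : ℚ_[p])) * kap p +
        (p : ℂ_[p]) ^ k * (y : ℂ_[p]) := by ring
  rw [e]
  refine (IsUltrametricDist.norm_add_le_max _ _).trans (max_le ?_ ?_)
  · rw [norm_mul]
    calc _ ≤ ‖(p : ℂ_[p])‖ ^ k * 1 :=
          mul_le_mul (norm_cn_sub g k) norm_kap_le (norm_nonneg _) (by positivity)
      _ = _ := mul_one _
  · rw [norm_mul, norm_pow]
    exact mul_le_of_le_one_right (by positivity) (norm_int_le p y)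

end Pool.Agent.Helper117_HT
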