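import Mathlib
import Pool.Agent.Helper117_HT.Unit

/-!
# The map `θ` on `W(R♭)[1/p]`
-/

set_option autoImplicit false
set_option linter.unusedSectionVars false

namespace Pool.Agent.Helper117_HT

open Pool.Agent.W292.FM Ideal WittVector

variable {p : ℕ} [hp : Fact p.Prime]

variable (p) in
/-- `A_inf[1/p]` -/
abbrev AL := Localization.Away (p : AI p)

theorem p_ne_zero_AI : (p : AI p) ≠ 0 := by
  intro h
  have h1 := congrArg (fontaineTheta 𝓞_ℂ_[p] p) h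
  rw [map_natCast, map_zero] at h1
  exact p_ne_zero_int h1

theorem powers_le_AI : Submonoid.powers (p : AI p) ≤ nonZeroDivisors (AI p) := by
  rintro _ ⟨n, rfl⟩
  exact pow_mem (mem_nonZeroDivisors_of_ne_zero p_ne_zero_AI) n

instance isDomain_AL : IsDomain (AL p) :=
  IsLocalization.isDomain_localization powers_le_AI

theorem algebraMap_AL_injective : Function.Injective (algebraMap (AI p) (AL p)) :=
  IsLocalization.injective _ powers_le_AI

theorem powers_le_int : Submonoid.powers (p : 𝓞_ℂ_[p]) ≤ nonZeroDivisors 𝓞_ℂ_[p] := by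
  rintro _ ⟨n, rfl⟩
  exact pow_mem (mem_nonZeroDivisors_of_ne_zero p_ne_zero_int) n

theorem algebraMap_int_injective :
    Function.Injective (algebraMap 𝓞_ℂ_[p] (Localization.Away (p : 𝓞_ℂ_[p]))) :=
  IsLocalization.injective _ powers_le_int

variable (p) in
/-- `θ : A_inf → ℂ_[p]` -/
noncomputable def th0 : AI p →+* ℂ_[p] :=
  (algebraMap 𝓞_ℂ_[p] ℂ_[p]).comp (fontaineTheta 𝓞_ℂ_[p] p)

theorem th0_apply (x : AI p) : th0 p x = ((fontaineTheta 𝓞_ℂ_[p] p x : 𝓞_ℂ_[p]) : ℂ_[p]) := rfl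

variable (p) in
/-- `θ : A_inf[1/p] → ℂ_[p]` -/
noncomputable def thC : AL p →+* ℂ_[p] :=
  IsLocalization.Away.lift (p : AI p) (g := th0 p) (by
    rw [th0_apply, map_natCast]
    have : ((p : 𝓞_ℂ_[p]) : ℂ_[p]) = (p : ℂ_[p]) := by simp
    rw [this]
    exact (p_ne_zero p).isUnit)

theorem thC_algebraMap (x : AI p) :
    thC p (algebraMap (AI p) (AL p) x) = ((fontaineTheta 𝓞_ℂ_[p] p x : 𝓞_ℂ_[p]) : ℂ_[p]) :=
  IsLocalization.Away.lift_eq _ _ _

theorem exists_AL (a : AL p) : ∃ (n : ℕ) (w : AI p),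
    a * algebraMap (AI p) (AL p) (p : AI p) ^ n = algebraMap (AI p) (AL p) w := by
  obtain ⟨n, w, h⟩ := IsLocalization.Away.surj (p : AI p) a
  exact ⟨n, w, h⟩

theorem isUnit_algebraMap_p : IsUnit (algebraMap (AI p) (AL p) (p : AI p)) :=
  IsLocalization.Away.algebraMap_isUnit _

theorem thC_eq_zero_iff (a : AL p) : thC p a = 0 ↔ a ∈ kerT 𝓞_ℂ_[p] p := by
  obtain ⟨n, w, h⟩ := exists_AL a
  have h1 : thC p a = 0 ↔ fontaineTheta 𝓞_ℂ_[p] p w = 0 := by
    have h2 := congrArg (thC p) h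
    rw [map_mul, map_pow, thC_algebraMap, thC_algebraMap, map_natCast] at h2
    have h3 : ((p : 𝓞_ℂ_[p]) : ℂ_[p]) = (p : ℂ_[p]) := by simp
    rw [h3] at h2
    constructor
    · intro h4
      rw [h4, zero_mul] at h2
      exact Subtype.ext h2.symm
    · intro h4
      rw [h4] at h2
      have h5 : ((0 : 𝓞_ℂ_[p]) : ℂ_[p]) = 0 := rfl
      rw [h5] at h2
      exact (mul_eq_zero.1 h2).resolve_right (pow_ne_zero _ (p_ne_zero p))
  rw [h1, kerT, RingHom.mem_ker]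
  have h2 := congrArg (fontaineThetaInvertP 𝓞_ℂ_[p] p) h
  rw [map_mul, map_pow, thetaInvertP_algebraMap, thetaInvertP_algebraMap, map_natCast] at h2
  have h3 : IsUnit ((algebraMap 𝓞_ℂ_[p] (Localization.Away (p : 𝓞_ℂ_[p]))) (p : 𝓞_ℂ_[p])) :=
    IsLocalization.Away.algebraMap_isUnit _
  constructor
  · intro h4
    rw [h4, map_zero] at h2
    exact ((h3.pow n).mul_left_eq_zero).1 h2
  · intro h4
    rw [h4, zero_mul] at h2
    apply algebraMap_int_injective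
    rw [map_zero]
    exact h2.symm

variable (p) in
/-- the generator of `ker θ` in `A_inf[1/p]` -/
noncomputable def oA : AL p := algebraMap (AI p) (AL p) (om p)

theorem mem_kerT_iff (a : AL p) : a ∈ kerT 𝓞_ℂ_[p] p ↔ oA p ∣ a := by
  rw [← thC_eq_zero_iff]
  constructor
  · intro h0
    obtain ⟨n, w, h⟩ := exists_AL a
    have h2 := congrArg (thC p) h
    rw [map_mul, h0, zero_mul, thC_algebraMap] at h2
    have h3 : fontaineTheta 𝓞_ℂ_[p] p w = 0 := Subtype.ext h2.symm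
    obtain ⟨z, hz⟩ := om_dvd h3
    have h4 : oA p ∣ a * algebraMap (AI p) (AL p) (p : AI p) ^ n := by
      rw [h, hz, map_mul]
      exact dvd_mul_right _ _
    exact ((isUnit_algebraMap_p.pow n).dvd_mul_right).1 h4
  · rintro ⟨z, rfl⟩
    rw [map_mul, oA, thC_algebraMap, theta_om]
    have h5 : ((0 : 𝓞_ℂ_[p]) : ℂ_[p]) = 0 := rfl
    rw [h5, zero_mul]

theorem kerT_eq : kerT 𝓞_ℂ_[p] p = Ideal.span {oA p} := by
  ext a
  rw [mem_kerT_iff, Ideal.mem_span_singleton]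

theorem mem_kerT_pow_iff (n : ℕ) (a : AL p) : a ∈ kerT 𝓞_ℂ_[p] p ^ n ↔ oA p ^ n ∣ a := by
  rw [kerT_eq, Ideal.span_singleton_pow, Ideal.mem_span_singleton]

theorem oA_ne_zero : oA p ≠ 0 := by
  intro h
  apply om_ne_zero (p := p)
  apply algebraMap_AL_injective
  rw [map_zero]
  exact h

theorem thC_locMap (g : Gal(PadicAlgCl p/ℚ_[p])) (a : AL p) :
    thC p (locMap p (intMap p g) a) = cpMap p g (thC p a) := by
  have key : (thC p).comp (locMap p (intMap p g)) = (cpMap p g : ℂ_[p] →+* ℂ_[p]).comp (thC p) := by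
    refine IsLocalization.ringHom_ext (Submonoid.powers (p : AI p)) ?_
    ext x
    simp only [RingHom.comp_apply]
    rw [locMap_algebraMap, thC_algebraMap, thC_algebraMap, theta_map, coe_intMap]
    rfl
  exact congrArg (fun f : AL p →+* ℂ_[p] => f a) key

/-- The cocycle describing the action on `oA`. -/
theorem exists_uA (g : Gal(PadicAlgCl p/ℚ_[p])) : ∃ u : AL p,
    locMap p (intMap p g) (oA p) = u * oA p ∧
    thC p u * cpMap p g (kap p) =
      algebraMap ℚ_[p] ℂ_[p] ((cyc p g : ℤ_[p]) : ℚ_[p]) * kap p := by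
  obtain ⟨u, h1, h2⟩ := exists_cocycle g
  refine ⟨algebraMap (AI p) (AL p) u, ?_, ?_⟩
  · rw [oA, locMap_algebraMap, h1, map_mul]
  · rw [thC_algebraMap, h2]

theorem zp_hom_unique (f h : ℤ_[p] →+* 𝓞_ℂ_[p]) : f = h := by
  refine RingHom.ext fun x => ?_
  rw [← sub_eq_zero]
  apply Subtype.ext
  change (((f x - h x : 𝓞_ℂ_[p])) : ℂ_[p]) = 0
  rw [← norm_le_zero_iff]
  refine ge_of_tendsto' (tendsto_norm_p_pow p) fun k => ?_
  have h1 : x - (x.appr k : ℤ_[p]) ∈ Ideal.span {(p : ℤ_[p]) ^ k} := PadicInt.appr_spec k x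
  rw [Ideal.mem_span_singleton] at h1
  obtain ⟨y, hy⟩ := h1
  have h2 : x = (x.appr k : ℤ_[p]) + (p : ℤ_[p]) ^ k * y := by rw [← hy]; ring
  have h3 : f x - h x = (p : 𝓞_ℂ_[p]) ^ k * (f y - h y) := by
    conv_lhs => rw [h2]
    simp only [map_add, map_mul, map_pow, map_natCast]
    ring
  rw [h3]
  have h4 : (((p : 𝓞_ℂ_[p]) ^ k * (f y - h y) : 𝓞_ℂ_[p]) : ℂ_[p]) =
      (p : ℂ_[p]) ^ k * ((f y - h y : 𝓞_ℂ_[p]) : ℂ_[p]) := by push_cast; rfl
  rw [h4, norm_mul, norm_pow]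
  exact mul_le_of_le_one_right (by positivity) (norm_int_le p _)

/-- the inclusion of `ℤ_[p]` in the ring of integers of `ℂ_[p]` -/
noncomputable def zpInt : ℤ_[p] →+* 𝓞_ℂ_[p] :=
  (((algebraMap ℚ_[p] ℂ_[p]).comp (PadicInt.Coe.ringHom (p := p))).codRestrict 𝓞_ℂ_[p] (by
    intro x
    rw [mem_int_iff]
    change ‖algebraMap ℚ_[p] ℂ_[p] (x : ℚ_[p])‖ ≤ 1
    have h3 : ∀ x : ℚ_[p], ‖algebraMap ℚ_[p] ℂ_[p] x‖ = ‖x‖ :=
      fun x => PadicComplex.norm_extends' p x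
    rw [h3]
    exact PadicInt.norm_le_one x))

theorem thC_qpMap (c : ℚ_[p]) : thC p (qpMap 𝓞_ℂ_[p] p c) = algebraMap ℚ_[p] ℂ_[p] c := by
  have h0 := zp_hom_unique ((fontaineTheta 𝓞_ℂ_[p] p).comp (zpMap 𝓞_ℂ_[p] p)) zpInt
  have key : (thC p).comp (qpMap 𝓞_ℂ_[p] p) = algebraMap ℚ_[p] ℂ_[p] := by
    refine IsLocalization.ringHom_ext (nonZeroDivisors ℤ_[p]) ?_
    ext x
    simp only [RingHom.comp_apply]
    rw [qpMap_coe, thC_algebraMap]
    have h1 := congrArg (fun f : ℤ_[p] →+* 𝓞_ℂ_[p] => ((f x : 𝓞_ℂ_[p]) : ℂ_[p])) h0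
    exact h1
  exact congrArg (fun f : ℚ_[p] →+* ℂ_[p] => f c) key

end Pool.Agent.Helper117_HT
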