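import Mathlib
import Pool.Agent.Helper117_HT.Loc

/-!
# Eigenvectors of the Galois group in `B_dR`

There is no nonzero `b` in `B_dR` on which a subgroup of finite index of the absolute Galois group
of `ℚ_[p]` acts by a character whose square is an odd power of the cyclotomic character.
-/

set_option autoImplicit false
set_option linter.unusedSectionVars false

namespace Pool.Agent.Helper117_HT

open Pool.Agent.W292.FM Ideal WittVector

variable {p : ℕ} [hp : Fact p.Prime]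

variable (p) in
/-- `B_dR^+` for `ℂ_[p]` -/
abbrev BP := BDeRhamPlus 𝓞_ℂ_[p] p

variable (p) in
/-- `B_dR` for `ℂ_[p]` (by `bDeRham_eq` this is Mathlib's `BDeRham 𝓞_ℂ_[p] p`) -/
abbrev BB := Localization (genSub 𝓞_ℂ_[p] p)

theorem toPlus_oA_mul_eq_zero {x : BP p} (h : toPlus p (oA p) * x = 0) : x = 0 := by
  refine evalP_ext p fun n => ?_
  obtain ⟨a, ha⟩ := Ideal.Quotient.mk_surjective (evalP p (n + 1) x)
  have h1 := congrArg (evalP p (n + 1)) h
  rw [map_mul, map_zero, evalP_toPlus, ← ha, ← map_mul, Ideal.Quotient.eq_zero_iff_mem,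
    mem_kerT_pow_iff, pow_succ', mul_dvd_mul_iff_left oA_ne_zero] at h1
  rw [map_zero, ← factorPow_evalP p (Nat.le_succ n), ← ha]
  change Ideal.Quotient.mk _ a = 0
  rw [Ideal.Quotient.eq_zero_iff_mem, mem_kerT_pow_iff]
  exact h1

theorem toPlus_oA_pow_mul_eq_zero (n : ℕ) {x : BP p} (h : toPlus p (oA p) ^ n * x = 0) :
    x = 0 := by
  induction n with
  | zero => simpa using h
  | succ n ih =>
    apply ih
    apply toPlus_oA_mul_eq_zero
    rw [← h]
    ring

/-- The elements inverted in `B_dR`. -/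
theorem exists_of_mem_genSub {s : BP p} (hs : s ∈ genSub 𝓞_ℂ_[p] p) :
    ∃ (n : ℕ) (v w : AL p), v * w = 1 ∧ s = toPlus p v * toPlus p (oA p) ^ n := by
  induction hs using Submonoid.closure_induction with
  | mem x hx =>
    obtain ⟨a, ha, rfl⟩ := hx
    have ha' : kerT 𝓞_ℂ_[p] p = Ideal.span {a} := ha
    have h1 : oA p ∣ a := by
      rw [← mem_kerT_iff, ha']
      exact Ideal.mem_span_singleton_self a
    have h2 : a ∣ oA p := by
      rw [← Ideal.mem_span_singleton, ← ha', mem_kerT_iff]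
    obtain ⟨v, hv⟩ := h1
    obtain ⟨w, hw⟩ := h2
    refine ⟨1, v, w, ?_, ?_⟩
    · apply mul_left_cancel₀ (oA_ne_zero (p := p))
      rw [mul_one, ← mul_assoc, ← hv, ← hw]
    · rw [pow_one, ← map_mul, mul_comm v, ← hv]
      rfl
  | one => exact ⟨0, 1, 1, by ring, by simp⟩
  | mul x y _ _ hx hy =>
    obtain ⟨n, v, w, h1, rfl⟩ := hx
    obtain ⟨n', v', w', h1', rfl⟩ := hy
    refine ⟨n + n', v * v', w * w', ?_, ?_⟩
    · calc v * v' * (w * w') = (v * w) * (v' * w') := by ring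
        _ = 1 := by rw [h1, h1', one_mul]
    · rw [map_mul]; ring

theorem toPlus_oA_mem : toPlus p (oA p) ∈ genSub 𝓞_ℂ_[p] p :=
  Submonoid.subset_closure ⟨oA p, kerT_eq, rfl⟩

theorem toPlus_unit_mul_eq_zero {v w : AL p} (h : v * w = 1) {x : BP p}
    (hx : toPlus p v * x = 0) : x = 0 := by
  calc x = toPlus p (w * v) * x := by rw [mul_comm w v, h, map_one, one_mul]
    _ = toPlus p w * (toPlus p v * x) := by rw [map_mul]; ring
    _ = 0 := by rw [hx, mul_zero]

theorem algebraMap_BB_eq_zero {x : BP p} (h : algebraMap (BP p) (BB p) x = 0) : x = 0 := by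
  rw [IsLocalization.map_eq_zero_iff (genSub 𝓞_ℂ_[p] p)] at h
  obtain ⟨⟨s, hs⟩, h⟩ := h
  obtain ⟨n, v, w, h1, rfl⟩ := exists_of_mem_genSub hs
  apply toPlus_oA_pow_mul_eq_zero n
  apply toPlus_unit_mul_eq_zero h1
  rw [← mul_assoc]
  exact h

theorem oA_not_isUnit : ¬ oA p ∣ 1 := by
  rw [← mem_kerT_iff, ← thC_eq_zero_iff, map_one]
  exact one_ne_zero

theorem BP_one_ne_zero : (1 : BP p) ≠ 0 := by
  intro h
  have h1 := congrArg (evalP p 1) h
  rw [map_one, map_zero, ← map_one (Ideal.Quotient.mk (kerT 𝓞_ℂ_[p] p ^ 1)),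
    Ideal.Quotient.eq_zero_iff_mem, mem_kerT_pow_iff, pow_one] at h1
  exact oA_not_isUnit h1

instance nontrivial_BB : Nontrivial (BB p) := by
  refine ⟨⟨1, 0, fun h => ?_⟩⟩
  rw [← map_one (algebraMap (BP p) (BB p))] at h
  exact BP_one_ne_zero (algebraMap_BB_eq_zero h)

/-- Every element of `B_dR` becomes an element of `B_dR^+` after multiplication by a power of the
generator. -/
theorem exists_BP (b : BB p) : ∃ (n : ℕ) (x : BP p),
    b * algebraMap (BP p) (BB p) (toPlus p (oA p)) ^ n = algebraMap (BP p) (BB p) x := by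
  obtain ⟨⟨y, s, hs⟩, hb⟩ := IsLocalization.surj (genSub 𝓞_ℂ_[p] p) b
  obtain ⟨n, v, w, h1, rfl⟩ := exists_of_mem_genSub hs
  refine ⟨n, toPlus p w * y, ?_⟩
  have hb' : b * algebraMap (BP p) (BB p) (toPlus p v * toPlus p (oA p) ^ n) =
      algebraMap (BP p) (BB p) y := hb
  have h2 : toPlus p w * (toPlus p v * toPlus p (oA p) ^ n) = toPlus p (oA p) ^ n := by
    rw [← mul_assoc, ← map_mul, mul_comm w v, h1, map_one, one_mul]
  calc b * algebraMap (BP p) (BB p) (toPlus p (oA p)) ^ n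
      = b * algebraMap (BP p) (BB p) (toPlus p w * (toPlus p v * toPlus p (oA p) ^ n)) := by
        rw [h2, map_pow]
    _ = algebraMap (BP p) (BB p) (toPlus p w) *
          (b * algebraMap (BP p) (BB p) (toPlus p v * toPlus p (oA p) ^ n)) := by
        rw [map_mul (algebraMap (BP p) (BB p)) (toPlus p w)]; ring
    _ = _ := by rw [hb', ← map_mul]

/-- The leading coefficient of a nonzero element of `B_dR^+`. -/
theorem exists_leading {x : BP p} (hx : x ≠ 0) : ∃ (m : ℕ) (z : AL p),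
    evalP p (m + 1) x = Ideal.Quotient.mk _ (oA p ^ m * z) ∧ thC p z ≠ 0 := by
  classical
  have h1 : ∃ n, evalP p n x ≠ 0 := by
    by_contra hcon
    push Not at hcon
    exact hx (evalP_ext p fun n => by rw [hcon n, map_zero])
  set M := Nat.find h1 with hM
  have h2 : evalP p M x ≠ 0 := Nat.find_spec h1
  have hM0 : M ≠ 0 := by
    intro h0
    rw [h0] at h2
    apply h2
    obtain ⟨a, ha⟩ := Ideal.Quotient.mk_surjective (evalP p 0 x)
    rw [← ha, Ideal.Quotient.eq_zero_iff_mem, pow_zero, Ideal.one_eq_top]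
    trivial
  obtain ⟨m, hm⟩ := Nat.exists_eq_succ_of_ne_zero hM0
  rw [Nat.succ_eq_add_one] at hm
  have h3 : evalP p m x = 0 := by
    by_contra h4
    exact Nat.find_min h1 (by omega) h4
  rw [hm] at h2
  obtain ⟨a, ha⟩ := Ideal.Quotient.mk_surjective (evalP p (m + 1) x)
  rw [← factorPow_evalP p (Nat.le_succ m), ← ha] at h3
  have h4 : Ideal.Quotient.mk (kerT 𝓞_ℂ_[p] p ^ m) a = 0 := h3
  rw [Ideal.Quotient.eq_zero_iff_mem, mem_kerT_pow_iff] at h4
  obtain ⟨z, rfl⟩ := h4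
  refine ⟨m, z, ha.symm, ?_⟩
  intro h5
  apply h2
  rw [thC_eq_zero_iff, mem_kerT_iff] at h5
  rw [← ha, Ideal.Quotient.eq_zero_iff_mem, mem_kerT_pow_iff, pow_succ]
  exact mul_dvd_mul_left _ h5

/-- The main local statement. -/
theorem no_eigenvector (H : Subgroup Gal(PadicAlgCl p/ℚ_[p])) [H.FiniteIndex] {c : ℤ}
    (hc : Odd c) (η : Gal(PadicAlgCl p/ℚ_[p]) → ℚ_[p])
    (hη : ∀ g ∈ H, η g ^ 2 = (((cyc p g ^ c : ℤ_[p]ˣ) : ℤ_[p]) : ℚ_[p]))
    (b : BB p) (hb : ∀ g ∈ H, bdrMap p (intMap p g) b = algebraMap ℚ_[p] (BB p) (η g) * b) :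
    b = 0 := by
  by_contra hb0
  obtain ⟨n, x, hx⟩ := exists_BP b
  have hunit : IsUnit (algebraMap (BP p) (BB p) (toPlus p (oA p))) :=
    IsLocalization.map_units (BB p) (⟨_, toPlus_oA_mem⟩ : genSub 𝓞_ℂ_[p] p)
  have hx0 : x ≠ 0 := by
    rintro rfl
    rw [map_zero] at hx
    exact hb0 (((hunit.pow n).mul_left_eq_zero).1 hx)
  obtain ⟨m, z, hz1, hz2⟩ := exists_leading hx0
  -- the equation for the leading coefficient
  have hlead : ∀ g ∈ H, ∃ U : ℂ_[p],
      U * cpMap p g (kap p) = algebraMap ℚ_[p] ℂ_[p] ((cyc p g : ℤ_[p]) : ℚ_[p]) * kap p ∧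
      U ^ m * cpMap p g (thC p z) = algebraMap ℚ_[p] ℂ_[p] (η g) * (U ^ n * thC p z) := by
    intro g hg
    obtain ⟨u, hu1, hu2⟩ := exists_uA g
    refine ⟨thC p u, hu2, ?_⟩
    -- equation in `B_dR`
    have h1 : algebraMap (BP p) (BB p) (plusMap p (intMap p g) x) =
        algebraMap (BP p) (BB p) (toPlus p (qpMap 𝓞_ℂ_[p] p (η g)) * toPlus p u ^ n * x) := by
      have e1 : bdrMap p (intMap p g) (algebraMap (BP p) (BB p) (toPlus p (oA p))) =
          algebraMap (BP p) (BB p) (toPlus p u) * algebraMap (BP p) (BB p) (toPlus p (oA p)) := by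
        rw [bdrMap_algebraMap, plusMap_toPlus, hu1, map_mul, map_mul]
      calc algebraMap (BP p) (BB p) (plusMap p (intMap p g) x)
          = bdrMap p (intMap p g) (algebraMap (BP p) (BB p) x) := (bdrMap_algebraMap p _ x).symm
        _ = bdrMap p (intMap p g) (b * algebraMap (BP p) (BB p) (toPlus p (oA p)) ^ n) := by
            rw [hx]
        _ = (algebraMap ℚ_[p] (BB p) (η g) * b) * (algebraMap (BP p) (BB p) (toPlus p u) ^ n *
              algebraMap (BP p) (BB p) (toPlus p (oA p)) ^ n) := by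
            rw [map_mul, map_pow, e1, hb g hg, mul_pow]
        _ = (algebraMap ℚ_[p] (BB p) (η g) * algebraMap (BP p) (BB p) (toPlus p u) ^ n) *
              (b * algebraMap (BP p) (BB p) (toPlus p (oA p)) ^ n) := mul_mul_mul_comm _ _ _ _
        _ = _ := by rw [hx, algebraMap_bdr, ← map_pow, ← map_mul, ← map_mul]
    have h2 : plusMap p (intMap p g) x = toPlus p (qpMap 𝓞_ℂ_[p] p (η g)) * toPlus p u ^ n * x := by
      rw [← sub_eq_zero]
      apply algebraMap_BB_eq_zero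
      rw [map_sub, h1, sub_self]
    have h3 := congrArg (evalP p (m + 1)) h2
    rw [evalP_plusMap, hz1, map_mul (evalP p (m + 1)), map_mul (evalP p (m + 1)),
      map_pow (evalP p (m + 1)), evalP_toPlus, evalP_toPlus, hz1, ← map_pow, ← map_mul,
      ← map_mul] at h3
    have h4 : Ideal.Quotient.mk (kerT 𝓞_ℂ_[p] p ^ (m + 1))
        (locMap p (intMap p g) (oA p ^ m * z)) = Ideal.Quotient.mk (kerT 𝓞_ℂ_[p] p ^ (m + 1))
          (qpMap 𝓞_ℂ_[p] p (η g) * u ^ n * (oA p ^ m * z)) := h3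
    rw [Ideal.Quotient.mk_eq_mk_iff_sub_mem, mem_kerT_pow_iff, map_mul, map_pow, hu1] at h4
    have h5 : (u * oA p) ^ m * locMap p (intMap p g) z -
        qpMap 𝓞_ℂ_[p] p (η g) * u ^ n * (oA p ^ m * z) =
        oA p ^ m * (u ^ m * locMap p (intMap p g) z - qpMap 𝓞_ℂ_[p] p (η g) * u ^ n * z) := by
      ring
    rw [h5, pow_succ, mul_dvd_mul_iff_left (pow_ne_zero m (oA_ne_zero (p := p))),
      ← mem_kerT_iff, ← thC_eq_zero_iff, map_sub, sub_eq_zero, map_mul, map_pow, thC_locMap,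
      map_mul, map_mul, map_pow, thC_qpMap] at h4
    rw [h4]
    ring
  -- the eigenvector in `ℂ_[p]`
  set k : ℤ := (n : ℤ) - (m : ℤ) with hk
  set X : ℂ_[p] := kap p ^ k * thC p z with hX
  have hX0 : X ≠ 0 := mul_ne_zero (zpow_ne_zero _ kap_ne_zero) hz2
  have hcyc : ∀ g : Gal(PadicAlgCl p/ℚ_[p]), ∀ i : ℤ,
      algebraMap ℚ_[p] ℂ_[p] (((cyc p g ^ i : ℤ_[p]ˣ) : ℤ_[p]) : ℚ_[p]) =
        (algebraMap ℚ_[p] ℂ_[p] ((cyc p g : ℤ_[p]) : ℚ_[p])) ^ i := by
    intro g i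
    rw [← map_zpow₀]
    congr 1
    have h1 : (((Units.map ((PadicInt.Coe.ringHom (p := p)) : ℤ_[p] →* ℚ_[p])) (cyc p g ^ i) :
        ℚ_[p]ˣ) : ℚ_[p]) = ((cyc p g : ℤ_[p]) : ℚ_[p]) ^ i := by
      rw [map_zpow, Units.val_zpow_eq_zpow_val]
      rfl
    exact h1
  have hXg : ∀ g ∈ H, cpMap p g X = algebraMap ℚ_[p] ℂ_[p] (η g) *
      (algebraMap ℚ_[p] ℂ_[p] ((cyc p g : ℤ_[p]) : ℚ_[p])) ^ k * X := by
    intro g hg
    obtain ⟨U, hU1, hU2⟩ := hlead g hg
    set C := algebraMap ℚ_[p] ℂ_[p] ((cyc p g : ℤ_[p]) : ℚ_[p]) with hC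
    have hC0 : C ≠ 0 := by
      intro h0
      have h1 := congrArg norm h0
      have h3 : ∀ x : ℚ_[p], ‖algebraMap ℚ_[p] ℂ_[p] x‖ = ‖x‖ :=
        fun x => PadicComplex.norm_extends' p x
      rw [hC, h3, norm_unit, norm_zero] at h1
      exact one_ne_zero h1
    have hU0 : U ≠ 0 := by
      rintro rfl
      rw [zero_mul] at hU1
      exact mul_ne_zero hC0 kap_ne_zero hU1.symm
    have h1 : cpMap p g (thC p z) = algebraMap ℚ_[p] ℂ_[p] (η g) * (U ^ k * thC p z) := by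
      have h2 : U ^ k = U ^ n / U ^ m := by
        rw [hk, zpow_sub₀ hU0, zpow_natCast, zpow_natCast]
      rw [h2]
      field_simp
      linear_combination hU2
    rw [hX, map_mul, map_zpow₀, h1]
    calc cpMap p g (kap p) ^ k * (algebraMap ℚ_[p] ℂ_[p] (η g) * (U ^ k * thC p z))
        = algebraMap ℚ_[p] ℂ_[p] (η g) * (U * cpMap p g (kap p)) ^ k * thC p z := by
          rw [mul_zpow]; ring
      _ = algebraMap ℚ_[p] ℂ_[p] (η g) * (C * kap p) ^ k * thC p z := by rw [hU1]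
      _ = _ := by rw [mul_zpow]; ring
  obtain ⟨d, hd⟩ := hc
  have hfin : X ^ 2 = 0 := by
    refine tate_finiteIndex H (k := c + 2 * k) (by omega) _ fun g hg => ?_
    rw [map_pow, hXg g hg, mul_pow, mul_pow, ← map_pow, hη g hg, hcyc, hcyc]
    have hC0 : algebraMap ℚ_[p] ℂ_[p] ((cyc p g : ℤ_[p]) : ℚ_[p]) ≠ 0 := by
      intro h0
      have h1 := congrArg norm h0
      have h3 : ∀ x : ℚ_[p], ‖algebraMap ℚ_[p] ℂ_[p] x‖ = ‖x‖ :=
        fun x => PadicComplex.norm_extends' p x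
      rw [h3, norm_unit, norm_zero] at h1
      exact one_ne_zero h1
    rw [zpow_add₀ hC0, ← zpow_natCast (_ ^ k), ← zpow_mul]
    congr 3
    push_cast
    ring
  exact hX0 (pow_eq_zero_iff (by norm_num) |>.1 hfin)

end Pool.Agent.Helper117_HT
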