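import Mathlib

/-!
# A square root of the identity character of `ℤ_[p]ˣ`, up to characters of finite order

There is a continuous character `s : ℤ_[p]ˣ → (ℚ_[p]^alg)ˣ` whose square is the inclusion on the
units congruent to `1` modulo `p ^ 3`.
-/

set_option autoImplicit false

namespace Pool.Agent.Helper117_HT

open Polynomial Filter Topology

variable {p : ℕ} [hp : Fact p.Prime]

variable (p) in
/-- The group of the `p`-adic units congruent to `1` modulo `p ^ 3`. -/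
noncomputable def U3 : Subgroup ℤ_[p]ˣ :=
  (Units.map (PadicInt.toZModPow (p := p) 3 : ℤ_[p] →* ZMod (p ^ 3))).ker

theorem mem_U3 {u : ℤ_[p]ˣ} : u ∈ U3 p ↔ ‖(u : ℤ_[p]) - 1‖ ≤ (p : ℝ) ^ (-(3 : ℕ) : ℤ) := by
  rw [PadicInt.norm_le_pow_iff_mem_span_pow, ← PadicInt.ker_toZModPow, RingHom.mem_ker, U3,
    MonoidHom.mem_ker, map_sub, map_one, sub_eq_zero, Units.ext_iff]
  rfl

instance finiteIndex_U3 : (U3 p).FiniteIndex := by
  have : NeZero (p ^ 3) := ⟨pow_ne_zero _ hp.out.ne_zero⟩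
  have : Finite (ZMod (p ^ 3))ˣ := inferInstance
  exact Subgroup.finiteIndex_ker _

theorem inv_le_norm_two : (p : ℝ)⁻¹ ≤ ‖(2 : ℤ_[p])‖ := by
  rcases eq_or_ne p 2 with h | h
  · subst h
    have := PadicInt.norm_p (p := 2)
    push_cast at this ⊢
    rw [this]
  · have h2 : ‖((2 : ℕ) : ℤ_[p])‖ = 1 := by
      rw [PadicInt.norm_def, PadicInt.coe_natCast, Padic.norm_natCast_eq_one_iff]
      exact (Nat.coprime_primes hp.out Nat.prime_two).2 h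
    push_cast at h2
    rw [h2]
    exact inv_le_one_of_one_le₀ (by exact_mod_cast hp.out.one_le)

theorem norm_two_pos : 0 < ‖(2 : ℤ_[p])‖ :=
  lt_of_lt_of_le (inv_pos.2 (by exact_mod_cast hp.out.pos)) inv_le_norm_two

theorem exists_sqrt {u : ℤ_[p]ˣ} (hu : u ∈ U3 p) :
    ∃ y : ℤ_[p], y ^ 2 = u ∧ ‖y - 1‖ < ‖(2 : ℤ_[p])‖ := by
  rw [mem_U3] at hu
  have hp1 : (1 : ℝ) < p := by exact_mod_cast hp.out.one_lt
  have hp0 : (0 : ℝ) < p := by linarith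
  have h1 : ‖aeval (1 : ℤ_[p]) (X ^ 2 - C (u : ℤ_[p]) : ℤ_[p][X])‖ <
      ‖aeval (1 : ℤ_[p]) (derivative (X ^ 2 - C (u : ℤ_[p]) : ℤ_[p][X]))‖ ^ 2 := by
    have e1 : aeval (1 : ℤ_[p]) (X ^ 2 - C (u : ℤ_[p]) : ℤ_[p][X]) = 1 - u := by simp
    have e2 : aeval (1 : ℤ_[p]) (derivative (X ^ 2 - C (u : ℤ_[p]) : ℤ_[p][X])) = 2 := by
      simp [one_add_one_eq_two]
    rw [e1, e2, norm_sub_rev]
    refine hu.trans_lt ?_
    have h2 : ((p : ℝ)⁻¹) ^ 2 ≤ ‖(2 : ℤ_[p])‖ ^ 2 :=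
      pow_le_pow_left₀ (inv_nonneg.2 hp0.le) inv_le_norm_two 2
    refine lt_of_lt_of_le ?_ h2
    rw [zpow_neg, zpow_natCast, ← inv_pow]
    exact pow_lt_pow_right_of_lt_one₀ (inv_pos.2 hp0) (inv_lt_one_of_one_lt₀ hp1) (by norm_num)
  obtain ⟨z, hz1, hz2, -, -⟩ := hensels_lemma h1
  refine ⟨z, ?_, ?_⟩
  · have e1 : aeval z (X ^ 2 - C (u : ℤ_[p]) : ℤ_[p][X]) = z ^ 2 - u := by simp
    rw [e1, sub_eq_zero] at hz1
    exact hz1
  · have e2 : aeval (1 : ℤ_[p]) (derivative (X ^ 2 - C (u : ℤ_[p]) : ℤ_[p][X])) = 2 := by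
      simp [one_add_one_eq_two]
    rwa [e2] at hz2

theorem norm_add_one_eq {y : ℤ_[p]} (hy : ‖y - 1‖ < ‖(2 : ℤ_[p])‖) :
    ‖y + 1‖ = ‖(2 : ℤ_[p])‖ := by
  have e : y + 1 = 2 + (y - 1) := by ring
  rw [e, IsUltrametricDist.norm_add_eq_max_of_norm_ne_norm hy.ne', max_eq_left hy.le]

theorem sqrt_unique {y y' : ℤ_[p]} (h : y ^ 2 = y' ^ 2) (hy : ‖y - 1‖ < ‖(2 : ℤ_[p])‖)
    (hy' : ‖y' - 1‖ < ‖(2 : ℤ_[p])‖) : y = y' := by
  rcases sq_eq_sq_iff_eq_or_eq_neg.1 h with h1 | h1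
  · exact h1
  · exfalso
    have h2 : ‖(2 : ℤ_[p])‖ < ‖(2 : ℤ_[p])‖ := by
      have e : (2 : ℤ_[p]) = -(y - 1) + -(y' - 1) := by rw [h1]; ring
      calc ‖(2 : ℤ_[p])‖ = ‖-(y - 1) + -(y' - 1)‖ := by rw [← e]
        _ ≤ max ‖-(y - 1)‖ ‖-(y' - 1)‖ := IsUltrametricDist.norm_add_le_max _ _
        _ < ‖(2 : ℤ_[p])‖ := by
          rw [norm_neg, norm_neg]; exact max_lt hy hy'
    exact lt_irrefl _ h2

theorem norm_two_le : ‖(2 : ℤ_[p])‖ ≤ 1 := PadicInt.norm_le_one _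

theorem norm_mul_sub_one_lt {y y' : ℤ_[p]} (hy : ‖y - 1‖ < ‖(2 : ℤ_[p])‖)
    (hy' : ‖y' - 1‖ < ‖(2 : ℤ_[p])‖) : ‖y * y' - 1‖ < ‖(2 : ℤ_[p])‖ := by
  have e : y * y' - 1 = y * (y' - 1) + (y - 1) := by ring
  rw [e]
  refine (IsUltrametricDist.norm_add_le_max _ _).trans_lt (max_lt ?_ hy)
  rw [norm_mul]
  calc ‖y‖ * ‖y' - 1‖ ≤ 1 * ‖y' - 1‖ :=
        mul_le_mul_of_nonneg_right (PadicInt.norm_le_one _) (norm_nonneg _)
    _ < _ := by rw [one_mul]; exact hy'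

/-- The square root of a unit congruent to `1` modulo `p ^ 3`. -/
noncomputable def rt (u : U3 p) : ℤ_[p] := (exists_sqrt u.2).choose

theorem rt_sq (u : U3 p) : rt u ^ 2 = ((u : ℤ_[p]ˣ) : ℤ_[p]) := (exists_sqrt u.2).choose_spec.1

theorem rt_norm (u : U3 p) : ‖rt u - 1‖ < ‖(2 : ℤ_[p])‖ := (exists_sqrt u.2).choose_spec.2

theorem rt_mul (u v : U3 p) : rt (u * v) = rt u * rt v := by
  apply sqrt_unique
  · rw [mul_pow, rt_sq, rt_sq, rt_sq]; simp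
  · exact rt_norm _
  · exact norm_mul_sub_one_lt (rt_norm u) (rt_norm v)

theorem rt_one : rt (1 : U3 p) = 1 := by
  apply sqrt_unique
  · rw [rt_sq]; simp
  · exact rt_norm _
  · rw [sub_self, norm_zero]; exact norm_two_pos

variable (p) in
/-- The square root as a homomorphism to the units of the algebraic closure of `ℚ_[p]`. -/
noncomputable def rtHom : U3 p →* (PadicAlgCl p)ˣ :=
  MonoidHom.toHomUnits
    { toFun := fun u => algebraMap ℚ_[p] (PadicAlgCl p) (rt u : ℚ_[p])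
      map_one' := by rw [rt_one]; simp
      map_mul' := fun u v => by rw [rt_mul]; simp }

theorem coe_rtHom (u : U3 p) :
    (rtHom p u : PadicAlgCl p) = algebraMap ℚ_[p] (PadicAlgCl p) (rt u : ℚ_[p]) := rfl

theorem exists_pow_eq_unit {n : ℕ} (hn : n ≠ 0) (x : (PadicAlgCl p)ˣ) : ∃ y, y ^ n = x := by
  obtain ⟨z, hz⟩ := IsAlgClosed.exists_pow_nat_eq (x : PadicAlgCl p) (Nat.pos_of_ne_zero hn)
  have hz0 : z ≠ 0 := by
    rintro rfl
    rw [zero_pow hn] at hz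
    exact x.ne_zero hz.symm
  exact ⟨Units.mk0 z hz0, by ext; simpa using hz⟩

theorem exists_extension : ∃ s : ℤ_[p]ˣ →* (PadicAlgCl p)ˣ, ∀ u : U3 p, s u = rtHom p u := by
  let h1 : RootableBy (PadicAlgCl p)ˣ ℕ := rootableByOfPowLeftSurj _ _ fun {n} hn x =>
    exists_pow_eq_unit hn x
  let h2 : RootableBy (PadicAlgCl p)ˣ ℤ := Group.rootableByIntOfRootableByNat _
  let h3 : DivisibleBy (Additive (PadicAlgCl p)ˣ) ℤ :=
    { div := fun a n => Additive.ofMul (RootableBy.root a.toMul n)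
      div_zero := fun a => congrArg Additive.ofMul (RootableBy.root_zero a.toMul)
      div_cancel := fun {n} a hn => congrArg Additive.ofMul (RootableBy.root_cancel a.toMul hn) }
  obtain ⟨h, hh⟩ := (Module.Baer.of_divisible (A := Additive (PadicAlgCl p)ˣ)
    ).extension_property_addMonoidHom (MonoidHom.toAdditive (U3 p).subtype)
      (by intro a b hab; exact Subtype.ext hab) (MonoidHom.toAdditive (rtHom p))
  refine ⟨MonoidHom.toAdditive.symm h, fun u => ?_⟩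
  exact congrArg (fun f : Additive (U3 p) →+ Additive (PadicAlgCl p)ˣ =>
    (f (Additive.ofMul u)).toMul) hh

theorem exists_sqrt_char : ∃ s : ℤ_[p]ˣ →* (PadicAlgCl p)ˣ, Continuous s ∧
    (∀ u ∈ U3 p, ∃ y : ℚ_[p], (s u : PadicAlgCl p) = algebraMap ℚ_[p] (PadicAlgCl p) y ∧
      y ^ 2 = ((u : ℤ_[p]) : ℚ_[p])) ∧
    ∃ m : ℕ, 0 < m ∧ ∀ u : ℤ_[p]ˣ, (s u : PadicAlgCl p) ^ (2 * m) =
      algebraMap ℚ_[p] (PadicAlgCl p) ((u : ℤ_[p]) : ℚ_[p]) ^ m := by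
  obtain ⟨s, hs⟩ := exists_extension (p := p)
  have hval : ∀ u : U3 p, (s u : PadicAlgCl p) =
      algebraMap ℚ_[p] (PadicAlgCl p) (rt u : ℚ_[p]) := by
    intro u; rw [hs u, coe_rtHom]
  have hp1 : (1 : ℝ) < p := by exact_mod_cast hp.out.one_lt
  have hp0 : (0 : ℝ) < p := by linarith
  have hsq : ∀ u : U3 p, (s u : PadicAlgCl p) ^ 2 =
      algebraMap ℚ_[p] (PadicAlgCl p) (((u : ℤ_[p]ˣ) : ℤ_[p]) : ℚ_[p]) := by
    intro u
    rw [hval, ← map_pow, ← PadicInt.coe_pow, rt_sq]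
  refine ⟨s, ?_, ?_, ?_⟩
  · apply continuous_of_continuousAt_one
    rw [ContinuousAt, Units.isEmbedding_val₀.tendsto_nhds_iff, map_one, Units.val_one,
      Metric.tendsto_nhds]
    intro ε hε
    have h1 : Tendsto (fun u : ℤ_[p]ˣ => ‖(u : ℤ_[p]) - 1‖) (𝓝 1) (𝓝 0) := by
      have : Continuous (fun u : ℤ_[p]ˣ => ‖(u : ℤ_[p]) - 1‖) := by fun_prop
      have h2 := this.tendsto 1
      simpa using h2
    have h2 : 0 < min ((p : ℝ) ^ (-(3 : ℕ) : ℤ)) (ε / p) := lt_min (by positivity) (by positivity)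
    filter_upwards [h1.eventually (gt_mem_nhds h2)] with u hu
    have hu3 : u ∈ U3 p := mem_U3.2 (hu.le.trans (min_le_left _ _))
    have hr := rt_norm ⟨u, hu3⟩
    have h3 : ‖rt ⟨u, hu3⟩ - 1‖ * ‖(2 : ℤ_[p])‖ = ‖(u : ℤ_[p]) - 1‖ := by
      rw [← norm_add_one_eq hr, ← norm_mul]
      congr 1
      have := rt_sq ⟨u, hu3⟩
      calc (rt ⟨u, hu3⟩ - 1) * (rt ⟨u, hu3⟩ + 1) = rt ⟨u, hu3⟩ ^ 2 - 1 := by ring
        _ = _ := by rw [this]
    have h4 : ‖rt ⟨u, hu3⟩ - 1‖ ≤ p * ‖(u : ℤ_[p]) - 1‖ := by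
      rw [← h3]
      have h5 := inv_le_norm_two (p := p)
      have h6 : 1 ≤ p * ‖(2 : ℤ_[p])‖ := by
        calc (1 : ℝ) = p * (p : ℝ)⁻¹ := by field_simp
          _ ≤ _ := mul_le_mul_of_nonneg_left h5 hp0.le
      nlinarith [norm_nonneg (rt ⟨u, hu3⟩ - 1)]
    have h7 : (s u : PadicAlgCl p) - 1 =
        algebraMap ℚ_[p] (PadicAlgCl p) ((rt ⟨u, hu3⟩ - 1 : ℤ_[p]) : ℚ_[p]) := by
      have := hval ⟨u, hu3⟩
      rw [PadicInt.coe_sub, map_sub, PadicInt.coe_one, map_one, ← this]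
    rw [Function.comp_apply, dist_eq_norm, h7]
    have h8 : ∀ x : ℚ_[p], ‖algebraMap ℚ_[p] (PadicAlgCl p) x‖ = ‖x‖ := PadicAlgCl.norm_extends p
    rw [h8, ← PadicInt.norm_def]
    refine h4.trans_lt ?_
    have h9 : ‖(u : ℤ_[p]) - 1‖ < ε / p := hu.trans_le (min_le_right _ _)
    calc (p : ℝ) * ‖(u : ℤ_[p]) - 1‖ < p * (ε / p) := mul_lt_mul_of_pos_left h9 hp0
      _ = ε := by field_simp
  · intro u hu
    refine ⟨rt ⟨u, hu⟩, hval ⟨u, hu⟩, ?_⟩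
    rw [← PadicInt.coe_pow, rt_sq]
  · refine ⟨(U3 p).index, Nat.pos_of_ne_zero Subgroup.FiniteIndex.index_ne_zero, fun u => ?_⟩
    have h1 : u ^ (U3 p).index ∈ U3 p := Subgroup.pow_index_mem (U3 p) u
    have h2 := hsq ⟨_, h1⟩
    simp only at h2
    rw [map_pow, Units.val_pow_eq_pow_val, ← pow_mul, Units.val_pow_eq_pow_val, PadicInt.coe_pow,
      map_pow, mul_comm] at h2
    exact h2

end Pool.Agent.Helper117_HT
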