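import Mathlib
import Pool.Agent.Helper117_HT.Tate

/-!
# The global side: the cyclotomic character, inertia, Frobenius elements, restriction to
decomposition groups
-/

set_option autoImplicit false
set_option linter.unusedSectionVars false

namespace Pool.Agent.Helper117_HT

open NumberField

universe u

variable {F : Type u} [Field F] {l : ℕ} [hl : Fact l.Prime]

/-! ### roots of unity modulo a prime ideal -/

theorem eq_one_of_sub_one_mem {S : Type*} [CommRing S] [IsDomain S] (P : Ideal S) [P.IsPrime]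
    (hP : (l : S) ∉ P) {x : S} {n : ℕ} (hx : x ^ l ^ n = 1) (h : x - 1 ∈ P) : x = 1 := by
  by_contra hne
  have h1 : (∑ i ∈ Finset.range (l ^ n), x ^ i) * (x - 1) = 0 := by
    rw [geom_sum_mul, hx, sub_self]
  have h2 : ∑ i ∈ Finset.range (l ^ n), x ^ i = 0 :=
    (mul_eq_zero.1 h1).resolve_right (sub_ne_zero.2 hne)
  have h3 := congrArg (Ideal.Quotient.mk P) h2
  have h4 : Ideal.Quotient.mk P x = 1 := by
    rw [← map_one (Ideal.Quotient.mk P), Ideal.Quotient.eq]
    exact h
  rw [map_sum, map_zero] at h3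
  simp only [map_pow, h4, one_pow, Finset.sum_const, Finset.card_range, nsmul_eq_mul,
    mul_one] at h3
  have h5 : Ideal.Quotient.mk P ((l : S) ^ n) = 0 := by
    rw [map_pow, map_natCast]
    exact_mod_cast h3
  rw [Ideal.Quotient.eq_zero_iff_mem] at h5
  exact hP (Ideal.IsPrime.mem_of_pow_mem inferInstance n h5)

theorem eq_of_sub_mem {S : Type*} [CommRing S] [IsDomain S] (P : Ideal S) [P.IsPrime]
    (hP : (l : S) ∉ P) {x y : S} {n : ℕ} (hx : x ^ l ^ n = 1) (hy : y ^ l ^ n = 1)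
    (h : x - y ∈ P) : x = y := by
  have hpos : 0 < l ^ n := pow_pos hl.out.pos n
  have hy1 : y ^ (l ^ n - 1) * y = 1 := by
    rw [← pow_succ, Nat.sub_add_cancel hpos, hy]
  have h1 : y ^ (l ^ n - 1) * x = 1 := by
    apply eq_one_of_sub_one_mem P hP (n := n)
    · rw [mul_pow, hx, ← pow_mul, mul_comm (l ^ n - 1), pow_mul, hy, one_pow, mul_one]
    · have e : y ^ (l ^ n - 1) * x - 1 = y ^ (l ^ n - 1) * (x - y) := by
        rw [mul_sub, hy1]
      rw [e]
      exact P.mul_mem_left _ h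
  calc x = (y ^ (l ^ n - 1) * y) * x := by rw [hy1, one_mul]
    _ = (y ^ (l ^ n - 1) * x) * y := by ring
    _ = y := by rw [h1, one_mul]

/-! ### the cyclotomic character -/

variable (F l) in
/-- The `l`-adic cyclotomic character of the absolute Galois group of `F`. -/
noncomputable def chi : Gal(AlgebraicClosure F/F) →* ℤ_[l]ˣ :=
  (cyclotomicCharacter (AlgebraicClosure F) l).comp
    (MulSemiringAction.toRingAut Gal(AlgebraicClosure F/F) (AlgebraicClosure F))

theorem continuous_chi : Continuous (chi F l) := cyclotomicCharacter.continuous l F _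

variable [NumberField F]

theorem exists_prim (n : ℕ) : ∃ z : AlgebraicClosure F, IsPrimitiveRoot z (l ^ n) :=
  HasEnoughRootsOfUnity.exists_primitiveRoot _ _

theorem chi_spec (σ : Gal(AlgebraicClosure F/F)) {n : ℕ} {t : AlgebraicClosure F}
    (ht : t ^ l ^ n = 1) : σ t = t ^ ((chi F l σ).val.toZModPow n).val :=
  cyclotomicCharacter.spec l (MulSemiringAction.toRingAut Gal(AlgebraicClosure F/F)
    (AlgebraicClosure F) σ) t ht

theorem toZModPow_chi_eq {σ : Gal(AlgebraicClosure F/F)} {n : ℕ} {z : AlgebraicClosure F}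
    (hz : IsPrimitiveRoot z (l ^ n)) {u : ℕ} (hu : σ z = z ^ u) :
    (chi F l σ).val.toZModPow n = (u : ZMod (l ^ n)) := by
  have : NeZero (l ^ n) := ⟨pow_ne_zero _ hl.out.ne_zero⟩
  have hfin : IsOfFinOrder z := isOfFinOrder_iff_pow_eq_one.2
    ⟨l ^ n, pow_pos hl.out.pos _, hz.pow_eq_one⟩
  rw [chi_spec σ hz.pow_eq_one, hfin.pow_eq_pow_iff_modEq, ← hz.eq_orderOf] at hu
  have h := (ZMod.natCast_eq_natCast_iff _ _ _).2 hu
  rwa [ZMod.natCast_zmod_val] at h

theorem coe_smul_int (σ : Gal(AlgebraicClosure F/F)) (x : 𝓞 (AlgebraicClosure F)) :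
    ((σ • x : 𝓞 (AlgebraicClosure F)) : AlgebraicClosure F) = σ (x : AlgebraicClosure F) := rfl

/-- An automorphism which acts on the `l`-power roots of unity modulo `P` by the `q`-th power,
`P` not above `l`, has cyclotomic character `q`. -/
theorem chi_eq_natCast (P : Ideal (𝓞 (AlgebraicClosure F))) [P.IsPrime]
    (hP : (l : 𝓞 (AlgebraicClosure F)) ∉ P) (σ : Gal(AlgebraicClosure F/F)) (q : ℕ)
    (h : ∀ x : 𝓞 (AlgebraicClosure F), σ • x - x ^ q ∈ P) : ((chi F l σ : ℤ_[l]ˣ) : ℤ_[l]) = q := by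
  refine PadicInt.ext_of_toZModPow.1 fun n => ?_
  obtain ⟨z, hz⟩ := exists_prim (F := F) (l := l) n
  have hpos : 0 < l ^ n := pow_pos hl.out.pos n
  have hzi : IsIntegral ℤ z := hz.isIntegral hpos
  let w : 𝓞 (AlgebraicClosure F) := ⟨z, hzi⟩
  have hw : w ^ l ^ n = 1 := RingOfIntegers.ext (by
    have h0 : ((w ^ l ^ n : 𝓞 (AlgebraicClosure F)) : AlgebraicClosure F) = z ^ l ^ n := rfl
    rw [h0, hz.pow_eq_one]; rfl)
  have h1 : σ • w = w ^ q := by
    refine eq_of_sub_mem P hP (n := n) ?_ ?_ (h w)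
    · rw [← smul_pow', hw, smul_one]
    · rw [← pow_mul, mul_comm, pow_mul, hw, one_pow]
  have h2 : σ z = z ^ q := by
    exact congrArg (fun x : 𝓞 (AlgebraicClosure F) => (x : AlgebraicClosure F)) h1
  rw [toZModPow_chi_eq hz h2, map_natCast]

theorem chi_eq_one_of_inertia (P : Ideal (𝓞 (AlgebraicClosure F))) [P.IsPrime]
    (hP : (l : 𝓞 (AlgebraicClosure F)) ∉ P) {σ : Gal(AlgebraicClosure F/F)}
    (h : σ ∈ P.inertia Gal(AlgebraicClosure F/F)) : chi F l σ = 1 := by
  ext1
  rw [chi_eq_natCast P hP σ 1 (fun x => by rw [pow_one]; exact h x)]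
  simp

/-! ### restriction to the decomposition groups above `l` -/

theorem cyc_eq_chi (j : AlgebraicClosure F →+* PadicAlgCl l) (g : Gal(PadicAlgCl l/ℚ_[l]))
    (σ : Gal(AlgebraicClosure F/F)) (h : ∀ x, g (j x) = j (σ x)) : cyc l g = chi F l σ := by
  ext1
  refine PadicInt.ext_of_toZModPow.1 fun n => ?_
  obtain ⟨z, hz⟩ := exists_prim (F := F) (l := l) n
  have hz' : IsPrimitiveRoot (j z) (l ^ n) := hz.map_of_injective j.injective
  have : NeZero (l ^ n) := ⟨pow_ne_zero _ hl.out.ne_zero⟩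
  rw [toZModPow_cyc_eq hz' (u := ((chi F l σ).val.toZModPow n).val), ZMod.natCast_zmod_val]
  rw [h, chi_spec σ hz.pow_eq_one, map_pow]

theorem exists_restrict (j : AlgebraicClosure F →+* PadicAlgCl l) (g : Gal(PadicAlgCl l/ℚ_[l]))
    (hg : ∀ y : F, g (j (algebraMap F (AlgebraicClosure F) y)) =
      j (algebraMap F (AlgebraicClosure F) y)) :
    ∃ σ : Gal(AlgebraicClosure F/F), ∀ x, g (j x) = j (σ x) := by
  let _ : Algebra (AlgebraicClosure F) (PadicAlgCl l) := j.toAlgebra
  let _ : Algebra F (PadicAlgCl l) := (j.comp (algebraMap F (AlgebraicClosure F))).toAlgebra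
  have : IsScalarTower F (AlgebraicClosure F) (PadicAlgCl l) :=
    IsScalarTower.of_algebraMap_eq (fun _ => rfl)
  let g' : Gal(PadicAlgCl l/F) := AlgEquiv.ofRingEquiv (f := (g : PadicAlgCl l ≃+* PadicAlgCl l)) hg
  refine ⟨g'.restrictNormal (AlgebraicClosure F), fun x => ?_⟩
  exact (AlgEquiv.restrictNormal_commutes g' (AlgebraicClosure F) x).symm

theorem exists_finiteIndex (j : AlgebraicClosure F →+* PadicAlgCl l) :
    ∃ H : Subgroup Gal(PadicAlgCl l/ℚ_[l]), H.FiniteIndex ∧ ∀ g ∈ H, ∀ y : F,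
      g (j (algebraMap F (AlgebraicClosure F) y)) = j (algebraMap F (AlgebraicClosure F) y) := by
  let b := Module.finBasis ℚ F
  let x : Fin (Module.finrank ℚ F) → PadicAlgCl l :=
    fun i => j (algebraMap F (AlgebraicClosure F) (b i))
  refine ⟨⨅ i, MulAction.stabilizer Gal(PadicAlgCl l/ℚ_[l]) (x i), ?_, ?_⟩
  · have h1 : ∀ i, (MulAction.stabilizer Gal(PadicAlgCl l/ℚ_[l]) (x i)).FiniteIndex := by
      intro i
      have h2 : Finite (Gal(PadicAlgCl l/ℚ_[l]) ⧸ MulAction.stabilizer Gal(PadicAlgCl l/ℚ_[l])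
          (x i)) := Subgroup.quotient_finite_of_isOpen _ (stabilizer_isOpen_of_isIntegral (x i))
      exact Subgroup.finiteIndex_of_finite_quotient
    exact Subgroup.finiteIndex_iInf h1
  · intro g hg y
    rw [Subgroup.mem_iInf] at hg
    let f1 : F →+* PadicAlgCl l := j.comp (algebraMap F (AlgebraicClosure F))
    let f2 : F →+* PadicAlgCl l := ((g : PadicAlgCl l ≃+* PadicAlgCl l) :
      PadicAlgCl l →+* PadicAlgCl l).comp f1
    have h3 : f2.toRatAlgHom.toLinearMap = f1.toRatAlgHom.toLinearMap := by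
      refine b.ext fun i => ?_
      exact hg i
    exact congrArg (fun f : F →ₗ[ℚ] PadicAlgCl l => f y) h3

/-! ### existence of Frobenius elements -/

instance isInvariant_int : Algebra.IsInvariant (𝓞 F) (𝓞 (AlgebraicClosure F))
    Gal(AlgebraicClosure F/F) where
  isInvariant b hb := by
    have h1 : ∀ g : Gal(AlgebraicClosure F/F), g (b : AlgebraicClosure F) = b := by
      intro g
      exact congrArg (fun x : 𝓞 (AlgebraicClosure F) => (x : AlgebraicClosure F)) (hb g)
    have h2 := (InfiniteGalois.mem_bot_iff_fixed (k := F) (b : AlgebraicClosure F)).2 h1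
    obtain ⟨a, ha⟩ := IntermediateField.mem_bot.1 h2
    have h3 : IsIntegral ℤ a := by
      have h4 : IsIntegral ℤ (algebraMap F (AlgebraicClosure F) a) := by
        rw [ha]; exact b.isIntegral_coe
      exact (isIntegral_algebraMap_iff (algebraMap F (AlgebraicClosure F)).injective).1 h4
    exact ⟨⟨a, h3⟩, RingOfIntegers.ext ha⟩

end Pool.Agent.Helper117_HT
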