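import Mathlib
import Pool.Agent.Helper117_HT.Glob

/-!
# Existence of Frobenius elements in the absolute Galois group of a number field
-/

set_option autoImplicit false

namespace Pool.Agent.Helper117_HT

open NumberField

universe u

variable {F : Type u} [Field F] [NumberField F]

theorem exists_frobenius (P : Ideal (𝓞 (AlgebraicClosure F))) [hP : P.IsMaximal] :
    ∃ τ : Gal(AlgebraicClosure F/F), ∀ x : 𝓞 (AlgebraicClosure F),
      τ • x - x ^ Nat.card (𝓞 F ⧸ P.under (𝓞 F)) ∈ P := by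
  have hint : Algebra.IsIntegral (𝓞 F) (𝓞 (AlgebraicClosure F)) := by
    constructor
    intro x
    have h1 : IsIntegral ℤ x := RingOfIntegers.isIntegral x
    exact h1.tower_top
  have hmax : (P.under (𝓞 F)).IsMaximal :=
    Ideal.isMaximal_comap_of_isIntegral_of_isMaximal (R := 𝓞 F) P
  have hfin : Finite (𝓞 F ⧸ P.under (𝓞 F)) :=
    (P.under (𝓞 F)).finiteQuotientOfFreeOfNeBot
      ((P.under (𝓞 F)).bot_lt_of_maximal (RingOfIntegers.not_isField F)).ne'
  let _ : Field (𝓞 F ⧸ P.under (𝓞 F)) := Ideal.Quotient.field _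
  let _ : Field (𝓞 (AlgebraicClosure F) ⧸ P) := Ideal.Quotient.field _
  have : Fintype (𝓞 F ⧸ P.under (𝓞 F)) := Fintype.ofFinite _
  have hlo : P.LiesOver (P.under (𝓞 F)) := ⟨rfl⟩
  have halg : Algebra.IsAlgebraic (𝓞 F ⧸ P.under (𝓞 F)) (𝓞 (AlgebraicClosure F) ⧸ P) := by
    have : Algebra.IsIntegral (𝓞 F ⧸ P.under (𝓞 F)) (𝓞 (AlgebraicClosure F) ⧸ P) := inferInstance
    exact this.isAlgebraic
  have hcomm : SMulCommClass Gal(AlgebraicClosure F/F) (𝓞 F) (𝓞 (AlgebraicClosure F)) := by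
    constructor
    intro σ a x
    apply RingOfIntegers.ext
    rw [coe_smul_int, Algebra.smul_def, Algebra.smul_def]
    have e1 : ((algebraMap (𝓞 F) (𝓞 (AlgebraicClosure F)) a * x : 𝓞 (AlgebraicClosure F)) :
      AlgebraicClosure F) = algebraMap F (AlgebraicClosure F) a * (x : AlgebraicClosure F) := rfl
    have e2 : ((algebraMap (𝓞 F) (𝓞 (AlgebraicClosure F)) a * σ • x : 𝓞 (AlgebraicClosure F)) :
      AlgebraicClosure F) = algebraMap F (AlgebraicClosure F) a * σ (x : AlgebraicClosure F) := rfl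
    rw [e1, e2, map_mul, AlgEquiv.commutes]
  let _ : TopologicalSpace (𝓞 (AlgebraicClosure F)) := ⊥
  have hdisc : DiscreteTopology (𝓞 (AlgebraicClosure F)) := ⟨rfl⟩
  have hcont : ContinuousSMul Gal(AlgebraicClosure F/F) (𝓞 (AlgebraicClosure F)) := by
    rw [continuousSMul_iff_stabilizer_isOpen]
    intro x
    have h1 := stabilizer_isOpen_of_isIntegral (K := F) (x : AlgebraicClosure F)
    have h2 : MulAction.stabilizer Gal(AlgebraicClosure F/F) x =
        MulAction.stabilizer Gal(AlgebraicClosure F/F) (x : AlgebraicClosure F) := by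
      ext σ
      rw [MulAction.mem_stabilizer_iff, MulAction.mem_stabilizer_iff, RingOfIntegers.ext_iff]
      rfl
    rw [h2]
    exact h1
  obtain ⟨τ, hτ⟩ := Ideal.Quotient.stabilizerHom_surjective_of_profinite
    (G := Gal(AlgebraicClosure F/F)) (P.under (𝓞 F)) P
    (FiniteField.frobeniusAlgEquivOfAlgebraic (𝓞 F ⧸ P.under (𝓞 F)) (𝓞 (AlgebraicClosure F) ⧸ P))
  refine ⟨τ.1, fun x => ?_⟩
  have h1 := congrArg (fun f : (𝓞 (AlgebraicClosure F) ⧸ P) ≃ₐ[𝓞 F ⧸ P.under (𝓞 F)]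
    (𝓞 (AlgebraicClosure F) ⧸ P) => f (Ideal.Quotient.mk P x)) hτ
  simp only [FiniteField.coe_frobeniusAlgEquivOfAlgebraic] at h1
  rw [← Ideal.Quotient.eq, map_pow, Nat.card_eq_fintype_card, ← h1]
  rfl

end Pool.Agent.Helper117_HT
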